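import Pool.Statements.S00360
import Pool.Agent.T9h65.Grade.Inst

set_option autoImplicit false
open Pool Pool.MP_a907e8_ag

namespace Pool.Agent.S00360

/-- The negation of the preceding statement: For every Noetherian local ring A and nonzero finitely generated A-module M with a finite projective resolution, the maximal length of an A-regular sequence in ann M plus the Krull dimension of A/ann M equals the Krull dimension of A. -/
theorem result :
    ¬ (∀ (A : Type) [CommRing A] [IsLocalRing A] [IsNoetherianRing A]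
      (M : Type) [AddCommGroup M] [Module A M] [Module.Finite A M] [Nontrivial M],
      (∃ P : CategoryTheory.ProjectiveResolution (ModuleCat.of A M), ∃ n : ℕ,
          ∀ i : ℕ, n ≤ i → CategoryTheory.Limits.IsZero (P.complex.X i)) →
      ∀ g : ℕ,
        (∃ rs : List A, rs.length = g ∧ (∀ r ∈ rs, r ∈ Module.annihilator A M) ∧
            RingTheory.Sequence.IsWeaklyRegular A rs) →
        (¬ ∃ rs : List A, rs.length = g + 1 ∧ (∀ r ∈ rs, r ∈ Module.annihilator A M) ∧
            RingTheory.Sequence.IsWeaklyRegular A rs) →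
        (g : WithBot ℕ∞) + ringKrullDim (A ⧸ Module.annihilator A M) = ringKrullDim A) := by
  intro H
  exact T9h65.Grade.contra (N := T9h65.Grade.NB) (T9h65.Grade.be T9h65.Dim.ra)
    (T9h65.Grade.be T9h65.Dim.rb) (T9h65.Grade.be T9h65.Dim.rc) (T9h65.Grade.be T9h65.Dim.rd)
    (T9h65.Grade.be T9h65.Dim.rz) T9h65.Grade.bw
    T9h65.Grade.hmaxB T9h65.Grade.z_mem_max T9h65.Grade.w_mem_max
    (by rw [T9h65.Grade.b_rel2]) (by rw [T9h65.Grade.b_rel3])
    (T9h65.Grade.nil_locB _ T9h65.Dim.nil_a) (T9h65.Grade.nil_locB _ T9h65.Dim.nil_b)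
    (T9h65.Grade.nil_locB _ T9h65.Dim.nil_c) (T9h65.Grade.nil_locB _ T9h65.Dim.nil_d)
    T9h65.Grade.qB T9h65.Grade.qB_le T9h65.Grade.qB_c T9h65.Grade.qB_d T9h65.Grade.qB_w
    T9h65.Grade.qB_z T9h65.Grade.hqN T9h65.Grade.hdimB T9h65.Grade.FR_NB
    (T9h65.Grade.tvan_A T9h65.Grade.bw T9h65.Grade.bw_nzd T9h65.Grade.bw_NB T9h65.Grade.tz) H

end Pool.Agent.S00360
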