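import Pool.Statements.S00526
import Pool.Agent.T9h64.VC.Dim

set_option autoImplicit false
open Pool Pool.MP_e9da60_ag

namespace Pool.Agent.S00526

/-- The negation of the preceding statement: For an analytically unramified Noetherian local ring of dimension d>0 and an m-primary ideal I, if length(R/closure(I^(n+1))) equals sum of (-1)^i e_i C(n+d-i,d-i) for large n, then e_1 is nonnegative. -/
theorem result :
    ¬ (∀ (R : Type) [CommRing R] [IsNoetherianRing R] [IsLocalRing R],
      IsReduced (AdicCompletion (IsLocalRing.maximalIdeal R) R) →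
      ∀ (d : ℕ), ringKrullDim R = (d : WithBot ℕ∞) → 0 < d →
      ∀ (I : Ideal R), I.radical = IsLocalRing.maximalIdeal R →
      ∀ (Ibar : ℕ → Ideal R),
        (∀ (n : ℕ) (x : R), x ∈ Ibar n ↔
          ∃ k : ℕ, 0 < k ∧ ∃ a : ℕ → R, (∀ j, a j ∈ (I ^ n) ^ j) ∧
            x ^ k + ∑ j ∈ Finset.range k, a (k - j) * x ^ j = 0) →
      ∀ (e : ℕ → ℚ),
        (∀ᶠ n in Filter.atTop, ∃ m : ℕ,
          Module.length R (R ⧸ Ibar (n + 1)) = (m : ℕ∞) ∧
          (m : ℚ) = ∑ i ∈ Finset.range (d + 1),
            (-1 : ℚ) ^ i * e i * (((n + d - i).choose (d - i) : ℕ) : ℚ)) →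
        0 ≤ e 1) := by
  intro h
  have h1 := h Pool.Agent.T9h64.VC.R Pool.Agent.T9h64.VC.completion_reduced 2
    Pool.Agent.T9h64.VC.dim_eq two_pos (IsLocalRing.maximalIdeal Pool.Agent.T9h64.VC.R)
    (Ideal.IsPrime.radical inferInstance)
    (fun n => IsLocalRing.maximalIdeal Pool.Agent.T9h64.VC.R ^ n)
    Pool.Agent.T9h64.VC.mem_pow_iff (fun i => if i = 0 then 1 else -1)
    (Filter.Eventually.of_forall fun n =>
      ⟨(n + 2).choose 2 + n, Pool.Agent.T9h64.VC.length_eq n, by
        rw [Finset.sum_range_succ, Finset.sum_range_succ, Finset.sum_range_succ,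
          Finset.sum_range_zero]
        have e1 : n + 2 - 1 = n + 1 := by omega
        have e2 : n + 2 - 2 = n := by omega
        simp [e1, e2]
        ring⟩)
  norm_num at h1

end Pool.Agent.S00526
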