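import Pool.Statements.S00830
-- import your own Pool.Agent.* helpers here

set_option autoImplicit false
open Pool Pool.MP_196888_al

namespace Pool.Agent.S00830

/-- Pairs (x,n) with x in Z/25 and n an integer. For a parameter c the product is
(x,n)(y,m) = (x + (1+5c)^n y, n+m), where (1+5c)^n = 1+5cn in Z/25. -/
@[ext] structure Tw (c : ZMod 25) : Type where
  x : ZMod 25
  n : ℤ

namespace Tw

variable {c : ZMod 25}

instance : Mul (Tw c) := ⟨fun g h => ⟨g.x + h.x + 5 * c * (g.n : ZMod 25) * h.x, g.n + h.n⟩⟩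
instance : One (Tw c) := ⟨⟨0, 0⟩⟩
instance : Inv (Tw c) := ⟨fun g => ⟨-g.x + 5 * c * (g.n : ZMod 25) * g.x, -g.n⟩⟩

@[simp] theorem mul_x (g h : Tw c) :
    (g * h).x = g.x + h.x + 5 * c * (g.n : ZMod 25) * h.x := rfl
@[simp] theorem mul_n (g h : Tw c) : (g * h).n = g.n + h.n := rfl
@[simp] theorem one_x : (1 : Tw c).x = 0 := rfl
@[simp] theorem one_n : (1 : Tw c).n = 0 := rfl
@[simp] theorem inv_x (g : Tw c) : (g⁻¹).x = -g.x + 5 * c * (g.n : ZMod 25) * g.x := rfl
@[simp] theorem inv_n (g : Tw c) : (g⁻¹).n = -g.n := rfl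

theorem h25 : (25 : ZMod 25) = 0 := by decide

instance : Group (Tw c) :=
  Group.ofLeftAxioms
    (by
      intro g h k
      ext
      · simp only [mul_x, mul_n, Int.cast_add]
        linear_combination (-(c * g.n * c * h.n * k.x)) * h25
      · simp [add_assoc])
    (by
      intro g
      ext
      · simp
      · simp)
    (by
      intro g
      ext
      · simp only [mul_x, inv_x, inv_n, one_x, Int.cast_neg]
        ring
      · simp)

end Tw

/-- The bijection between the two groups. -/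
def th : Tw 1 ≃ Tw 3 where
  toFun g := ⟨g.x + 5 * (g.n : ZMod 25) * g.x, g.n⟩
  invFun g := ⟨g.x - 5 * (g.n : ZMod 25) * g.x, g.n⟩
  left_inv g := by
    ext
    · show g.x + 5 * (g.n : ZMod 25) * g.x - 5 * (g.n : ZMod 25) * (g.x + 5 * (g.n : ZMod 25) * g.x)
        = g.x
      linear_combination (-((g.n : ZMod 25) * g.n * g.x)) * Tw.h25
    · rfl
  right_inv g := by
    ext
    · show g.x - 5 * (g.n : ZMod 25) * g.x + 5 * (g.n : ZMod 25) * (g.x - 5 * (g.n : ZMod 25) * g.x)
        = g.x
      linear_combination (-((g.n : ZMod 25) * g.n * g.x)) * Tw.h25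
    · rfl

theorem th_x (g : Tw 1) : (th g).x = g.x + 5 * (g.n : ZMod 25) * g.x := rfl
theorem th_n (g : Tw 1) : (th g).n = g.n := rfl
theorem ths_x (g : Tw 3) : (th.symm g).x = g.x - 5 * (g.n : ZMod 25) * g.x := rfl
theorem ths_n (g : Tw 3) : (th.symm g).n = g.n := rfl

/-- The commutator in the twisted group. -/
theorem comm_eq {c : ZMod 25} (g h : Tw c) :
    g * h * g⁻¹ * h⁻¹ = ⟨5 * c * ((g.n : ZMod 25) * h.x - (h.n : ZMod 25) * g.x), 0⟩ := by
  ext
  · simp only [Tw.mul_x, Tw.mul_n, Tw.inv_x, Tw.inv_n,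
      Int.cast_add, Int.cast_neg]
    generalize (g.n : ZMod 25) = a
    generalize (h.n : ZMod 25) = b
    generalize g.x = u
    generalize h.x = v
    ring_nf
    have h2 : ∀ z : ZMod 25, z * 25 = 0 := fun z => by rw [Tw.h25, mul_zero]
    simp only [h2]
    ring
  · simp

theorem th_mul (g h : Tw 1) :
    th g * th h = th (g * h * (g * h * g⁻¹ * h⁻¹) ^ 1) := by
  rw [comm_eq, pow_one]
  ext
  · simp only [Tw.mul_x, Tw.mul_n, th_x, th_n, Int.cast_add, Int.cast_zero]
    generalize (g.n : ZMod 25) = a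
    generalize (h.n : ZMod 25) = b
    generalize g.x = u
    generalize h.x = v
    ring_nf
    have h1 : ∀ z : ZMod 25, z * 50 = 0 := fun z => by
      rw [show (50 : ZMod 25) = 0 by decide, mul_zero]
    have h2 : ∀ z : ZMod 25, z * 75 = 0 := fun z => by
      rw [show (75 : ZMod 25) = 0 by decide, mul_zero]
    have h3 : ∀ z : ZMod 25, z * 125 = 0 := fun z => by
      rw [show (125 : ZMod 25) = 0 by decide, mul_zero]
    have h4 : ∀ z : ZMod 25, z * 250 = 0 := fun z => by
      rw [show (250 : ZMod 25) = 0 by decide, mul_zero]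
    simp only [h1, h2, h3, h4]
    ring
  · simp [th_n]

theorem ths_mul (g h : Tw 3) : th.symm g * th.symm h =
    th.symm (g * h * (g * h * g⁻¹ * h⁻¹) ^ 3) := by
  rw [comm_eq, pow_succ, pow_two]
  ext
  · simp only [Tw.mul_x, Tw.mul_n, ths_x, ths_n, Int.cast_add, Int.cast_zero]
    generalize (g.n : ZMod 25) = a
    generalize (h.n : ZMod 25) = b
    generalize g.x = u
    generalize h.x = v
    have h1 : ∀ z : ZMod 25, z * 50 = 0 := fun z => by
      rw [show (50 : ZMod 25) = 0 by decide, mul_zero]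
    have h2 : ∀ z : ZMod 25, z * 450 = 0 := fun z => by
      rw [show (450 : ZMod 25) = 0 by decide, mul_zero]
    have h3 : ∀ z : ZMod 25, z * 6750 = 0 := fun z => by
      rw [show (6750 : ZMod 25) = 0 by decide, mul_zero]
    have h4 : ∀ z : ZMod 25, z * 3375 = 0 := fun z => by
      rw [show (3375 : ZMod 25) = 0 by decide, mul_zero]
    have h5 : ∀ z : ZMod 25, z * 375 = 0 := fun z => by
      rw [show (375 : ZMod 25) = 0 by decide, mul_zero]
    have h6 : ∀ z : ZMod 25, z * 25 = 0 := fun z => by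
      rw [show (25 : ZMod 25) = 0 by decide, mul_zero]
    have h7 : ∀ z : ZMod 25, z * 55 = z * 5 := fun z => by
      rw [show (55 : ZMod 25) = 5 by decide]
    ring_nf
    simp only [h1, h2, h3, h4, h5, h6, h7]
    ring
  · simp [ths_n]

/-- The transport of subgroups along a bijection which turns a product into a product times
a power of the commutator. -/
def mapSub {X Y : Type} [Group X] [Group Y] (e : X ≃ Y) (k : ℕ)
    (hm : ∀ a b : X, e a * e b = e (a * b * (a * b * a⁻¹ * b⁻¹) ^ k)) (U : Subgroup X) :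
    Subgroup Y where
  carrier := {y | e.symm y ∈ U}
  mul_mem' := by
    intro y z hy hz
    simp only [Set.mem_ofPred_eq] at hy hz ⊢
    have h := hm (e.symm y) (e.symm z)
    rw [e.apply_symm_apply, e.apply_symm_apply] at h
    rw [h, e.symm_apply_apply]
    exact U.mul_mem (U.mul_mem hy hz)
      (U.pow_mem (U.mul_mem (U.mul_mem (U.mul_mem hy hz) (U.inv_mem hy)) (U.inv_mem hz)) k)
  one_mem' := by
    have h := hm 1 1
    simp only [mul_one, inv_one, one_pow] at h
    have h1 : e 1 = 1 := by simpa using h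
    show e.symm 1 ∈ U
    rw [← h1, e.symm_apply_apply]
    exact U.one_mem
  inv_mem' := by
    intro y hy
    simp only [Set.mem_ofPred_eq] at hy ⊢
    have h := hm 1 1
    simp only [mul_one, inv_one, one_pow] at h
    have h1 : e 1 = 1 := by simpa using h
    have h2 := hm (e.symm y)⁻¹ (e.symm y)
    rw [e.apply_symm_apply, inv_mul_cancel, inv_inv, one_mul, one_mul, mul_inv_cancel, one_pow,
      h1] at h2
    have h3 : e (e.symm y)⁻¹ = y⁻¹ := eq_inv_of_mul_eq_one_left h2
    rw [← h3, e.symm_apply_apply]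
    exact U.inv_mem hy

theorem mem_mapSub {X Y : Type} [Group X] [Group Y] (e : X ≃ Y) (k : ℕ)
    (hm : ∀ a b : X, e a * e b = e (a * b * (a * b * a⁻¹ * b⁻¹) ^ k)) (U : Subgroup X) (y : Y) :
    y ∈ mapSub e k hm U ↔ e.symm y ∈ U := Iff.rfl

/-- The induced isomorphism of subgroup lattices. -/
def subIso {X Y : Type} [Group X] [Group Y] (e : X ≃ Y) (k l : ℕ)
    (hm : ∀ a b : X, e a * e b = e (a * b * (a * b * a⁻¹ * b⁻¹) ^ k))
    (hm' : ∀ a b : Y, e.symm a * e.symm b = e.symm (a * b * (a * b * a⁻¹ * b⁻¹) ^ l)) :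
    Subgroup X ≃o Subgroup Y where
  toFun := mapSub e k hm
  invFun := mapSub e.symm l hm'
  left_inv U := by
    ext x
    rw [mem_mapSub, mem_mapSub, Equiv.symm_symm, Equiv.symm_apply_apply]
  right_inv V := by
    ext y
    rw [mem_mapSub, mem_mapSub, Equiv.symm_symm, Equiv.apply_symm_apply]
  map_rel_iff' := by
    intro U V
    constructor
    · intro h x hx
      have := @h (e x) (by
        show e x ∈ mapSub e k hm U
        rw [mem_mapSub, Equiv.symm_apply_apply]; exact hx)
      have h2 : e x ∈ mapSub e k hm V := this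
      rw [mem_mapSub, Equiv.symm_apply_apply] at h2
      exact h2
    · intro h y hy
      exact h hy

/-- The coordinatewise bijection. -/
def thp (I : Type) : (I → Tw 1) ≃ (I → Tw 3) := Equiv.piCongrRight (fun _ => th)

theorem thp_mul (I : Type) (a b : I → Tw 1) :
    thp I a * thp I b = thp I (a * b * (a * b * a⁻¹ * b⁻¹) ^ 1) := by
  funext i
  exact th_mul (a i) (b i)

theorem thps_mul (I : Type) (a b : I → Tw 3) :
    (thp I).symm a * (thp I).symm b = (thp I).symm (a * b * (a * b * a⁻¹ * b⁻¹) ^ 3) := by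
  funext i
  exact ths_mul (a i) (b i)

/-- The lattice isomorphism between the subgroup lattices of the powers. -/
def phi (I : Type) : Subgroup (I → Tw 1) ≃o Subgroup (I → Tw 3) :=
  subIso (thp I) 1 3 (thp_mul I) (thps_mul I)

theorem phi_range (I : Type) [DecidableEq I] (i : I) :
    phi I (MonoidHom.mulSingle (fun _ : I => Tw 1) i).range =
      (MonoidHom.mulSingle (fun _ : I => Tw 3) i).range := by
  ext y
  constructor
  · rintro ⟨x, hx⟩
    refine ⟨th x, ?_⟩
    have h : thp I ((MonoidHom.mulSingle (fun _ : I => Tw 1) i) x) = y := by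
      rw [hx, Equiv.apply_symm_apply]
    rw [← h]
    funext j
    show (Pi.mulSingle i (th x) : I → Tw 3) j = th ((Pi.mulSingle i x : I → Tw 1) j)
    by_cases hj : j = i
    · subst hj; simp
    · rw [Pi.mulSingle_eq_of_ne hj, Pi.mulSingle_eq_of_ne hj]
      ext <;> simp [th_x, th_n]
  · rintro ⟨x, hx⟩
    refine ⟨th.symm x, ?_⟩
    rw [← hx]
    funext j
    show (Pi.mulSingle i (th.symm x) : I → Tw 1) j = th.symm ((Pi.mulSingle i x : I → Tw 3) j)
    by_cases hj : j = i
    · subst hj; simp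
    · rw [Pi.mulSingle_eq_of_ne hj, Pi.mulSingle_eq_of_ne hj]
      ext <;> simp [ths_x, ths_n]

theorem pow_n {c : ZMod 25} (g : Tw c) (k : ℕ) : (g ^ k).n = k * g.n := by
  induction k with
  | zero => simp
  | succ k ih => rw [pow_succ, Tw.mul_n, ih]; push_cast; ring

theorem pow_x {c : ZMod 25} (x : ZMod 25) (k : ℕ) :
    ((⟨x, 0⟩ : Tw c) ^ k) = ⟨k * x, 0⟩ := by
  induction k with
  | zero => ext <;> simp
  | succ k ih =>
    rw [pow_succ, ih]
    ext
    · simp; ring
    · simp

/-- There is no isomorphism between the two groups. -/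
theorem not_iso (f : Tw 1 ≃* Tw 3) : False := by
  have tors : ∀ x : ZMod 25, (f ⟨x, 0⟩).n = 0 := by
    intro x
    have h : (f ⟨x, 0⟩) ^ 25 = 1 := by
      rw [← map_pow, pow_x, show ((25 : ℕ) : ZMod 25) = 0 by decide, zero_mul]
      exact map_one f
    have h2 := pow_n (f ⟨x, 0⟩) 25
    rw [h, Tw.one_n] at h2
    push_cast at h2
    omega
  have hsum : ∀ m n : ℤ, (f ⟨0, m + n⟩).n = (f ⟨0, m⟩).n + (f ⟨0, n⟩).n := by
    intro m n
    rw [← Tw.mul_n, ← map_mul]
    congr 2
  let F : ℤ →+ ℤ := AddMonoidHom.mk' (fun n => (f ⟨0, n⟩).n) hsum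
  have hF : ∀ n : ℤ, (f ⟨0, n⟩).n = n * (f ⟨0, 1⟩).n := by
    intro n
    have h : F n = n • F 1 := by rw [← map_zsmul, smul_eq_mul, mul_one]
    simpa [F] using h
  obtain ⟨g, hg⟩ := f.surjective ⟨0, 1⟩
  have hg2 : (1 : ℤ) = g.n * (f ⟨0, 1⟩).n := by
    have h1 : g = (⟨g.x, 0⟩ : Tw 1) * ⟨0, g.n⟩ := by ext <;> simp
    have h2 : (f g).n = 1 := by rw [hg]
    rw [h1, map_mul, Tw.mul_n, tors, hF, zero_add] at h2
    exact h2.symm
  have he : (f ⟨0, 1⟩).n = 1 ∨ (f ⟨0, 1⟩).n = -1 :=
    Int.isUnit_iff.mp (IsUnit.of_mul_eq_one_right _ hg2.symm)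
  -- the action relation
  have hrel : (⟨0, 1⟩ : Tw 1) * ⟨1, 0⟩ = ⟨1, 0⟩ ^ 6 * ⟨0, 1⟩ := by
    rw [pow_x]
    ext
    · simp; decide
    · simp
  have hfa : f ⟨1, 0⟩ = ⟨(f ⟨1, 0⟩).x, 0⟩ := by
    ext
    · rfl
    · exact tors 1
  have h5 : 5 * (f ⟨1, 0⟩).x ≠ 0 := by
    intro h
    have h1 : f (⟨1, 0⟩ ^ 5) = 1 := by
      rw [map_pow, hfa, pow_x]
      ext
      · simpa using h
      · rfl
    have h2 : (⟨1, 0⟩ : Tw 1) ^ 5 = 1 := by
      apply f.injective
      rw [h1, map_one]
    rw [pow_x] at h2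
    have h3 := congrArg Tw.x h2
    revert h3
    simp
    decide
  have hrel2 := congrArg f hrel
  rw [map_mul, map_mul, map_pow, hfa, pow_x] at hrel2
  have hx := congrArg Tw.x hrel2
  simp only [Tw.mul_x] at hx
  generalize (f ⟨1, 0⟩).x = t at hx h5
  generalize (f ⟨0, 1⟩).x = s at hx
  rcases he with he | he
  · rw [he] at hx
    push_cast at hx
    exact h5 (by linear_combination 13 * hx - 5 * t * Tw.h25)
  · rw [he] at hx
    push_cast at hx
    exact h5 (by linear_combination hx + t * Tw.h25)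

/-- The negation of the preceding statement: For every group G, every m ≥ 2 and every lattice isomorphism φ from the subgroups of G^m to the subgroups of a group H such that H is the internal direct product of the images of the coordinate subgroups, the image of the first coordinate subgroup is isomorphic to G. -/
theorem result :
    ¬ (∀ (G : Type) [Group G] (n : ℕ) (H : Type) [Group H]
      (φ : Subgroup (Fin (n + 2) → G) ≃o Subgroup H),
      (∀ i : Fin (n + 2),
          (φ (MonoidHom.mulSingle (fun _ : Fin (n + 2) => G) i).range).Normal) →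
      (⨆ i : Fin (n + 2), φ (MonoidHom.mulSingle (fun _ : Fin (n + 2) => G) i).range) = ⊤ →
      iSupIndep (fun i : Fin (n + 2) =>
          φ (MonoidHom.mulSingle (fun _ : Fin (n + 2) => G) i).range) →
      Nonempty (↥(φ (MonoidHom.mulSingle (fun _ : Fin (n + 2) => G) 0).range) ≃* G)) := by
  intro H
  have h := H (Tw 1) 0 (Fin (0 + 2) → Tw 3) (phi (Fin (0 + 2)))
  simp only [phi_range] at h
  have h1 := h (by
    intro i
    constructor
    rintro _ ⟨x, rfl⟩ g
    refine ⟨g i * x * (g i)⁻¹, ?_⟩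
    funext j
    simp only [MonoidHom.mulSingle_apply, Pi.mul_apply, Pi.inv_apply]
    by_cases hj : j = i
    · subst hj; simp
    · simp [Pi.mulSingle_eq_of_ne hj]) (by
    rw [eq_top_iff]
    intro x _
    apply Subgroup.pi_mem_of_mulSingle_mem
    intro i
    exact Subgroup.mem_iSup_of_mem i ⟨x i, rfl⟩) (by
    intro i
    rw [Subgroup.disjoint_def]
    rintro _ ⟨x, rfl⟩ h2
    have h3 : ∀ y ∈ (⨆ j, ⨆ (_ : j ≠ i), (MonoidHom.mulSingle (fun _ : Fin (0 + 2) => Tw 3) j).range),
        y i = 1 := by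
      have h4 : (⨆ j, ⨆ (_ : j ≠ i), (MonoidHom.mulSingle (fun _ : Fin (0 + 2) => Tw 3) j).range)
          ≤ (Pi.evalMonoidHom (fun _ : Fin (0 + 2) => Tw 3) i).ker := by
        refine iSup_le fun j => iSup_le fun hj => ?_
        rintro _ ⟨z, rfl⟩
        rw [MonoidHom.mem_ker]
        simp [Pi.mulSingle_eq_of_ne (Ne.symm hj)]
      intro y hy
      exact h4 hy
    have h5 := h3 _ h2
    simp only [MonoidHom.mulSingle_apply, Pi.mulSingle_eq_same] at h5
    rw [h5]
    exact map_one _)
  obtain ⟨f⟩ := h1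
  have inj : Function.Injective (MonoidHom.mulSingle (fun _ : Fin (0 + 2) => Tw 3) 0) := by
    intro x y hxy
    have h2 := congrFun hxy 0
    simpa using h2
  exact not_iso (((MonoidHom.ofInjective inj).trans
    (MulEquiv.subgroupCongr (phi_range (Fin (0 + 2)) 0)).symm).trans f).symm

end Pool.Agent.S00830
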