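import Pool.Statements.S04693
import Pool.Agent.T9h71.PiBase

set_option autoImplicit false
open Pool Pool.MP_53fbd4_an

namespace Pool.Agent.S04693

open Pool.Agent.T9h71.PB Set Topology

/-- the basic sets of the countable `π`-base -/
def W {X : Type} [NormedAddCommGroup X] [NormedSpace ℝ X] (c : ℕ → X →L[ℝ] ℝ)
    (m : ℕ) (q : Fin m → ℚ) (ρ : ℚ) : Set (WeakSpace ℝ X) :=
  {x | ∀ i : Fin m, |c i ((toWeakSpace ℝ X).symm x) - q i| < ρ}

lemma continuous_eval {X : Type} [NormedAddCommGroup X] [NormedSpace ℝ X] (f : X →L[ℝ] ℝ) :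
    Continuous fun x : WeakSpace ℝ X => f ((toWeakSpace ℝ X).symm x) :=
  WeakBilin.eval_continuous (topDualPairing ℝ X).flip f

lemma isOpen_W {X : Type} [NormedAddCommGroup X] [NormedSpace ℝ X] (c : ℕ → X →L[ℝ] ℝ)
    (m : ℕ) (q : Fin m → ℚ) (ρ : ℚ) : IsOpen (W c m q ρ) := by
  have : W c m q ρ = ⋂ i : Fin m, {x | |c i ((toWeakSpace ℝ X).symm x) - q i| < ρ} := by
    ext x; simp [W]
  rw [this]
  refine isOpen_iInter_of_finite fun i => ?_
  exact isOpen_lt (((continuous_eval (c i)).sub continuous_const).abs) continuous_const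

/-- For every real Banach space with a 1-unconditional basis, the closed unit ball in the relative weak topology has a countable family of nonempty relatively open sets such that every nonempty relatively open subset of the ball contains one of them. -/
theorem result :
    ∀ (X : Type) [NormedAddCommGroup X] [NormedSpace ℝ X] [CompleteSpace X] (e : ℕ → X),
      (∀ x : X, ∃! a : ℕ → ℝ, HasSum (fun n => a n • e n) x) →
      (∀ (s : Finset ℕ) (a ε : ℕ → ℝ), (∀ n, ε n = 1 ∨ ε n = -1) →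
          ‖∑ n ∈ s, (ε n * a n) • e n‖ ≤ ‖∑ n ∈ s, a n • e n‖) →
      ∃ U : ℕ → Set (WeakSpace ℝ X),
        (∀ n, IsOpen (U n) ∧
            (U n ∩ (toWeakSpace ℝ X) '' Metric.closedBall (0 : X) 1).Nonempty) ∧
        ∀ V : Set (WeakSpace ℝ X), IsOpen V →
          (V ∩ (toWeakSpace ℝ X) '' Metric.closedBall (0 : X) 1).Nonempty →
            ∃ n, U n ∩ (toWeakSpace ℝ X) '' Metric.closedBall (0 : X) 1 ⊆ V := by
  intro X _ _ _ e hx hu
  classical
  set B : Set (WeakSpace ℝ X) := (toWeakSpace ℝ X) '' Metric.closedBall (0 : X) 1 with hB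
  set c : ℕ → X →L[ℝ] ℝ := fun n => coL hx hu n with hc
  -- the countable family
  set F : Set (Set (WeakSpace ℝ X)) :=
    {U | (U ∩ B).Nonempty ∧ ∃ p : Σ m : ℕ, (Fin m → ℚ) × ℚ, U = W c p.1 p.2.1 p.2.2} with hF
  have hcount : F.Countable := by
    have h1 : (range fun p : Σ m : ℕ, (Fin m → ℚ) × ℚ => W c p.1 p.2.1 p.2.2).Countable :=
      countable_range _
    refine h1.mono ?_
    rintro U ⟨-, p, rfl⟩
    exact ⟨p, rfl⟩
  have hkey : ∀ V : Set (WeakSpace ℝ X), IsOpen V → (V ∩ B).Nonempty →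
      ∃ U ∈ F, U ∩ B ⊆ V := by
    rintro V hV ⟨_, hxV, x, hx1, rfl⟩
    rw [mem_closedBall_zero_iff] at hx1
    obtain ⟨O, hO, rfl⟩ := isOpen_induced_iff.1 hV
    obtain ⟨I, u, hu1, hu2⟩ := isOpen_pi_iff.1 hO _ hxV
    -- a common radius
    have hδ : ∃ δ : ℝ, 0 < δ ∧ ∀ f ∈ I, Metric.ball ((topDualPairing ℝ X).flip x f) δ ⊆ u f := by
      have hex : ∀ f ∈ I, ∃ δ : ℝ, 0 < δ ∧
          Metric.ball ((topDualPairing ℝ X).flip x f) δ ⊆ u f := fun f hf =>
        Metric.isOpen_iff.1 (hu1 f hf).1 _ (hu1 f hf).2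
      clear hu1 hu2 hxV hV hO
      induction I using Finset.induction_on with
      | empty => exact ⟨1, one_pos, by simp⟩
      | insert f I _ ih =>
        obtain ⟨δ1, h1, h2⟩ := ih fun f hf => hex f (Finset.mem_insert_of_mem hf)
        obtain ⟨δ2, h3, h4⟩ := hex f (Finset.mem_insert_self _ _)
        refine ⟨min δ1 δ2, lt_min h1 h3, fun g hg => ?_⟩
        rcases Finset.mem_insert.1 hg with rfl | hg
        · exact (Metric.ball_subset_ball (min_le_right _ _)).trans h4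
        · exact (Metric.ball_subset_ball (min_le_left _ _)).trans (h2 g hg)
    obtain ⟨δ, hδ0, hδ⟩ := hδ
    obtain ⟨M, b, ρ, hρ, ⟨p, hp1, hp⟩, hM⟩ := key hx hu I x hx1 δ hδ0
    obtain ⟨r, hr0, hr1⟩ := exists_rat_btwn (show (0:ℝ) < ρ / 2 by positivity)
    have hq : ∀ i : Fin M, ∃ q : ℚ, |b i - q| < r := by
      intro i
      obtain ⟨q, hq1, hq2⟩ := exists_rat_btwn (show b i - r < b i + r by linarith)
      exact ⟨q, by rw [abs_lt]; constructor <;> linarith⟩
    choose q hq using hq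
    refine ⟨W c M q r, ⟨⟨toWeakSpace ℝ X p, ?_, p, by rwa [mem_closedBall_zero_iff], rfl⟩,
      ⟨M, q, r⟩, rfl⟩, ?_⟩
    · intro i
      show |co hx p i - q i| < r
      rw [hp i i.2]
      exact hq i
    · rintro _ ⟨hz1, z, hz2, rfl⟩
      rw [mem_closedBall_zero_iff] at hz2
      have h1 := hM z hz2 (by
        intro i hi
        have h2 : |co hx z i - q ⟨i, hi⟩| < r := hz1 ⟨i, hi⟩
        have h3 := hq ⟨i, hi⟩
        calc |co hx z i - b i| = |(co hx z i - q ⟨i, hi⟩) - (b i - q ⟨i, hi⟩)| := by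
              congr 1; ring
          _ ≤ |co hx z i - q ⟨i, hi⟩| + |b i - q ⟨i, hi⟩| := abs_sub _ _
          _ < r + r := add_lt_add h2 h3
          _ < ρ := by linarith)
      apply hu2
      intro f hf
      apply hδ f hf
      rw [Metric.mem_ball, Real.dist_eq]
      exact h1 f hf
  have hne : F.Nonempty := by
    obtain ⟨U, hU, -⟩ := hkey univ isOpen_univ ⟨toWeakSpace ℝ X 0, mem_univ _, 0, by simp, rfl⟩
    exact ⟨U, hU⟩
  obtain ⟨U, hU⟩ := hcount.exists_eq_range hne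
  have hUF : ∀ n, U n ∈ F := fun n => by rw [hU]; exact mem_range_self n
  refine ⟨U, fun n => ?_, fun V hV hVB => ?_⟩
  · obtain ⟨h1, p, h2⟩ := hUF n
    refine ⟨?_, h1⟩
    rw [h2]
    exact isOpen_W _ _ _ _
  · obtain ⟨U', hU', hsub⟩ := hkey V hV hVB
    rw [hU] at hU'
    obtain ⟨n, rfl⟩ := hU'
    exact ⟨n, hsub⟩

end Pool.Agent.S04693
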