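import Pool.Statements.S05168
import Pool.Agent.T9h72.HS.Body

set_option autoImplicit false
open MeasureTheory
open Pool Pool.MP_7dd24e_an

namespace Pool.Agent.S05168

open Pool.Agent.T9h72.HS Set

/-- three distinct collinear points do not lie on an affine image of a sphere -/
lemma no_affine_sphere
    (f : EuclideanSpace ℝ (Fin 3) ≃ᵃ[ℝ] EuclideanSpace ℝ (Fin 3))
    {p d : EuclideanSpace ℝ (Fin 3)} (hd : d ≠ 0)
    (h0 : p ∈ f '' Metric.sphere (0 : EuclideanSpace ℝ (Fin 3)) 1)
    (h1 : p + d ∈ f '' Metric.sphere (0 : EuclideanSpace ℝ (Fin 3)) 1)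
    (h2 : p - d ∈ f '' Metric.sphere (0 : EuclideanSpace ℝ (Fin 3)) 1) : False := by
  obtain ⟨a, ha, hap⟩ := h0
  obtain ⟨b, hb, hbp⟩ := h1
  obtain ⟨c, hc, hcp⟩ := h2
  rw [mem_sphere_zero_iff_norm] at ha hb hc
  have hmid : a = midpoint ℝ b c := by
    apply f.injective
    rw [f.map_midpoint, hap, hbp, hcp]
    rw [midpoint_eq_smul_add]
    have : p + d + (p - d) = (2:ℝ) • p := by rw [two_smul]; abel
    rw [this, smul_smul]
    simp
  have h3 : (2:ℝ) • a = b + c := by
    rw [hmid, midpoint_eq_smul_add, smul_smul]; simp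
  have h4 : ‖b + c‖ = 2 := by rw [← h3, norm_smul, ha]; simp
  have h5 := parallelogram_law_with_norm ℝ b c
  rw [h4, hb, hc] at h5
  have h6 : ‖b - c‖ = 0 := by nlinarith [norm_nonneg (b - c)]
  have h7 : b = c := sub_eq_zero.1 (norm_eq_zero.1 h6)
  rw [h7, hcp] at hbp
  apply hd
  have h8 : (2:ℝ) • d = 0 := by
    have : (2:ℝ) • d = (p + d) - (p - d) := by rw [two_smul]; abel
    rw [this, hbp, sub_self]
  exact (smul_eq_zero.1 h8).resolve_left two_ne_zero

/-- boundary points on the flat face -/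
lemma face {y : EuclideanSpace ℝ (Fin 3)} (h0 : y 0 = 9 / 10) (hy : ‖y‖ < 1) :
    y ∈ frontier DD := by
  rw [DD_open.frontier_eq]
  refine ⟨?_, fun hc => ?_⟩
  · have h1 : Filter.Tendsto (fun t : ℝ => t • y) (nhdsWithin 1 (Iio 1)) (nhds y) := by
      have : Filter.Tendsto (fun t : ℝ => t • y) (nhds 1) (nhds ((1:ℝ) • y)) :=
        Continuous.tendsto (by fun_prop) 1
      rw [one_smul] at this
      exact this.mono_left nhdsWithin_le_nhds
    refine mem_closure_of_tendsto h1 ?_
    filter_upwards [Ioo_mem_nhdsLT (zero_lt_one (α := ℝ))] with t ht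
    refine ⟨?_, ?_⟩
    · rw [norm_smul, Real.norm_eq_abs, abs_of_pos ht.1]
      nlinarith [norm_nonneg y, ht.1, ht.2]
    · have e : (t • y) 0 = t * y 0 := by simp
      rw [e, h0, abs_of_pos (by have := ht.1; positivity)]
      linarith [ht.2]
  · have := hc.2
    rw [h0, abs_of_pos (by norm_num)] at this
    exact lt_irrefl _ this

/-- The negation of the preceding statement: If two nested topological spheres in R^3 bound a shell whose Newtonian potential is constant in the inner cavity, then the two surfaces are the images of concentric spheres of radii 1 and k<1 under one invertible affine map. -/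
theorem result :
    ¬ (∀ (S S₁ U T₁ : Set (EuclideanSpace ℝ (Fin 3))),
    Nonempty (S ≃ₜ Metric.sphere (0 : EuclideanSpace ℝ (Fin 3)) 1) →
    Nonempty (S₁ ≃ₜ Metric.sphere (0 : EuclideanSpace ℝ (Fin 3)) 1) →
    IsOpen U → IsConnected U → Bornology.IsBounded U → frontier U = S →
    IsOpen T₁ → IsConnected T₁ → Bornology.IsBounded T₁ → frontier T₁ = S₁ →
    closure T₁ ⊆ U →
    (∃ c : ℝ, ∀ P ∈ T₁, ∫ M in U \ closure T₁, (dist P M)⁻¹ = c) →
    ∃ (f : EuclideanSpace ℝ (Fin 3) ≃ᵃ[ℝ] EuclideanSpace ℝ (Fin 3)) (k : ℝ),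
      0 < k ∧ k < 1 ∧
      S = f '' Metric.sphere (0 : EuclideanSpace ℝ (Fin 3)) 1 ∧
      S₁ = f '' Metric.sphere (0 : EuclideanSpace ℝ (Fin 3)) k) := by
  intro hall
  obtain ⟨f, hfa, hf1, hf2⟩ := exists_EL one_pos DD_open.measurableSet DD_ball lev
  have hf : EL DD lev f := ⟨hfa, hf1, EL_le one_pos DD_ball lev_pos.le hfa hf2⟩
  have hbD : Bornology.IsBounded DD := Metric.isBounded_ball.subset DD_ball
  have hS := star_sphere DD_open hbD zero_mem_DD DD_star
  have hS1 := star_sphere (isOpen_interior : IsOpen (TT f)) (TT_bdd hf) (TT_zero hf) (TT_star hf)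
  obtain ⟨F, k, -, -, hF, -⟩ := hall (frontier DD) (frontier (TT f)) DD (TT f) hS hS1 DD_open
    (star_connected zero_mem_DD DD_star) hbD rfl isOpen_interior
    (star_connected (TT_zero hf) (TT_star hf)) (TT_bdd hf) rfl ((TT_cl hf).trans (KK_sub hf))
    ⟨lev, pot_const hf⟩
  set p : EuclideanSpace ℝ (Fin 3) := EuclideanSpace.single 0 (9/10) with hp
  set d : EuclideanSpace ℝ (Fin 3) := EuclideanSpace.single 1 (1/20) with hd
  have hpn : ‖p‖ = 9 / 10 := by rw [hp]; simp
  have hdn : ‖d‖ = 1 / 20 := by rw [hd]; simp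
  refine no_affine_sphere F (p := p) (d := d) ?_ ?_ ?_ ?_
  · intro h
    rw [h, norm_zero] at hdn
    norm_num at hdn
  · rw [← hF]
    exact face (by rw [hp]; simp) (by rw [hpn]; norm_num)
  · rw [← hF]
    refine face (by rw [hp, hd]; simp) ?_
    refine (norm_add_le _ _).trans_lt ?_
    rw [hpn, hdn]; norm_num
  · rw [← hF]
    refine face (by rw [hp, hd]; simp) ?_
    refine (norm_sub_le _ _).trans_lt ?_
    rw [hpn, hdn]; norm_num

end Pool.Agent.S05168
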