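import Pool.Statements.S06280
import Pool.Agent.T9h73.MonoGerm
import Pool.Agent.T9h73.MonoSeq

set_option autoImplicit false
open Pool Pool.MP_d4c9a2_an

namespace Pool.Agent.S06280

open Pool.Agent.T9h73.MonoGerm Pool.Agent.T9h73.MonoSeq

/-- The exponent matrix of `(x, y, z) ↦ (z, x³, x³ y³ z)`. -/
def A : Matrix (Fin 3) (Fin 3) ℕ := !![0, 0, 1; 3, 0, 0; 3, 3, 1]

lemma sum_A (k : ℕ) : ∑ j, (A ^ k) 0 j = x k ∧ ∑ j, (A ^ k) 1 j = y k ∧ ∑ j, (A ^ k) 2 j = z k := by
  induction k with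
  | zero => simp [x_zero, y_zero, z_zero, Matrix.one_apply]
  | succ k ih =>
    obtain ⟨h0, h1, h2⟩ := ih
    have key : ∀ i, ∑ j, (A ^ (k + 1)) i j = A i 0 * x k + A i 1 * y k + A i 2 * z k := by
      intro i
      rw [pow_succ']
      simp only [Matrix.mul_apply, Fin.sum_univ_three] at h0 h1 h2 ⊢
      rw [← h0, ← h1, ← h2]
      ring
    refine ⟨?_, ?_, ?_⟩
    · rw [key, x_succ]; simp [A]
    · rw [key, y_succ]; simp [A]
    · rw [key, z_succ]; simp [A]

lemma order_iterate (k : ℕ) :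
    sInf {m : ℕ | iteratedFDeriv ℂ m ((mono A)^[k]) 0 ≠ 0} = min (x k) (y k) := by
  rw [mono_iterate]
  obtain ⟨h0, h1, h2⟩ := sum_A k
  obtain ⟨hx, hy⟩ := le_z k
  have hall : ∀ i : Fin 3, min (x k) (y k) ≤ ∑ j, (A ^ k) i j := by
    intro i
    fin_cases i
    · show _ ≤ ∑ j, (A ^ k) 0 j
      rw [h0]; exact min_le_left _ _
    · show _ ≤ ∑ j, (A ^ k) 1 j
      rw [h1]; exact min_le_right _ _
    · show _ ≤ ∑ j, (A ^ k) 2 j
      rw [h2]; exact (min_le_left _ _).trans hx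
  rcases le_total (x k) (y k) with h | h
  · exact order_mono _ _ hall 0 (by rw [h0, min_eq_left h])
  · exact order_mono _ _ hall 1 (by rw [h1, min_eq_right h])

/-- The Jacobian matrix of the germ. -/
noncomputable def J (v : Fin 3 → ℂ) : Matrix (Fin 3) (Fin 3) ℂ :=
  !![0, 0, 1; 3 * v 0 ^ 2, 0, 0;
    3 * v 0 ^ 2 * (v 1 ^ 3 * v 2), 3 * v 1 ^ 2 * (v 0 ^ 3 * v 2), v 0 ^ 3 * v 1 ^ 3]

lemma det_J (v : Fin 3 → ℂ) : (J v).det = 9 * v 0 ^ 5 * v 1 ^ 2 * v 2 := by
  simp [J, Matrix.det_fin_three]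
  ring

lemma hasFDerivAt_mono (v : Fin 3 → ℂ) :
    HasFDerivAt (mono A) (LinearMap.toContinuousLinearMap (Matrix.toLin' (J v))) v := by
  have hc : ∀ i : Fin 3, HasFDerivAt (fun w : Fin 3 → ℂ => w i)
      (ContinuousLinearMap.proj (R := ℂ) (φ := fun _ : Fin 3 => ℂ) i) v := fun i => hasFDerivAt_apply i v
  rw [hasFDerivAt_pi']
  intro i
  fin_cases i
  · have h := hc 2
    have h1 : (fun w : Fin 3 → ℂ => mono A w 0) = fun w => w 2 := by
      funext w; simp [mono, A, Fin.prod_univ_three]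
    show HasFDerivAt (fun w : Fin 3 → ℂ => mono A w 0) _ v
    rw [h1]
    refine h.congr_fderiv ?_
    ext w
    simp [J, Matrix.toLin'_apply, dotProduct, Fin.sum_univ_three]
  · have h := (hc 0).pow 3
    have h1 : (fun w : Fin 3 → ℂ => mono A w 1) = fun w => w 0 ^ 3 := by
      funext w; simp [mono, A, Fin.prod_univ_three]
    show HasFDerivAt (fun w : Fin 3 → ℂ => mono A w 1) _ v
    rw [h1]
    refine h.congr_fderiv ?_
    ext w
    simp [J, Matrix.toLin'_apply, dotProduct, Fin.sum_univ_three]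
  · have h := (((hc 0).pow 3).mul ((hc 1).pow 3)).mul (hc 2)
    have h1 : (fun w : Fin 3 → ℂ => mono A w 2) = fun w => w 0 ^ 3 * w 1 ^ 3 * w 2 := by
      funext w; simp [mono, A, Fin.prod_univ_three]
    show HasFDerivAt (fun w : Fin 3 → ℂ => mono A w 2) _ v
    rw [h1]
    refine h.congr_fderiv ?_
    ext w
    simp [J, Matrix.toLin'_apply, dotProduct, Fin.sum_univ_three]
    ring

lemma det_fderiv (v : Fin 3 → ℂ) : (fderiv ℂ (mono A) v).det = 9 * v 0 ^ 5 * v 1 ^ 2 * v 2 := by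
  rw [(hasFDerivAt_mono v).fderiv, ContinuousLinearMap.det, LinearMap.coe_toContinuousLinearMap,
    LinearMap.det_toLin', det_J]

/-- The negation of the preceding statement: For every holomorphic germ f of ℂⁿ fixing 0 that is non-invertible and dominant, the orders of vanishing c(f^k) of its iterates at 0 eventually satisfy a linear recursion with integer coefficients. -/
theorem result :
    ¬ (∀ (n : ℕ) (f : (Fin n → ℂ) → (Fin n → ℂ)),
      AnalyticAt ℂ f 0 → f 0 = 0 →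
      (fderiv ℂ f 0).det = 0 →
      (∀ ε : ℝ, 0 < ε → ∃ z : Fin n → ℂ, ‖z‖ < ε ∧ (fderiv ℂ f z).det ≠ 0) →
      ∃ (d : ℕ) (a : Fin d → ℤ) (K : ℕ), ∀ k : ℕ, K ≤ k →
        ((sInf {m : ℕ | iteratedFDeriv ℂ m (f^[k + d]) 0 ≠ 0} : ℕ) : ℤ) =
          ∑ i : Fin d, a i *
            ((sInf {m : ℕ | iteratedFDeriv ℂ m (f^[k + (i : ℕ)]) 0 ≠ 0} : ℕ) : ℤ)) := by
  intro H
  obtain ⟨d, a, K, hK⟩ := H 3 (mono A) (contDiff_mono A).contDiffAt.analyticAt
    (by
      ext i
      fin_cases i <;> simp [mono, A, Fin.prod_univ_three])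
    (by rw [det_fderiv]; simp)
    (by
      intro ε hε
      refine ⟨fun _ => ((ε / 2 : ℝ) : ℂ), ?_, ?_⟩
      · refine lt_of_le_of_lt ((pi_norm_le_iff_of_nonneg (by positivity : (0:ℝ) ≤ ε / 2)).2
          fun i => ?_) (half_lt_self hε)
        rw [Complex.norm_real, Real.norm_eq_abs, abs_of_pos (by positivity)]
      · rw [det_fderiv]
        have : ((ε / 2 : ℝ) : ℂ) ≠ 0 := by
          rw [Ne, Complex.ofReal_eq_zero]; positivity
        exact mul_ne_zero (mul_ne_zero (mul_ne_zero (by norm_num) (pow_ne_zero _ this))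
          (pow_ne_zero _ this)) this)
  refine no_recursion d a K fun k hk => ?_
  have h := hK k hk
  simp only [order_iterate] at h
  exact h

end Pool.Agent.S06280
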