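import Pool.Statements.S07574
-- import your own Pool.Agent.* helpers here

set_option autoImplicit false
open Pool Pool.MP_1f8616_co

namespace Pool.Agent.S07574

/-- The negation of the preceding statement: Every countable poset with no saturated chain (or its reverse) that is an ω-indexed linear sum of infinite co-wellfounded chains has, for each k≥2, k disjoint chains and a partition into antichains where each antichain A meets at least min(∣A∣,k) chains. -/
theorem result :
    ¬ (∀ (α : Type) [PartialOrder α] [Countable α],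
    (¬ ∃ C : Set α, IsChain (· ≤ ·) C ∧
        (∀ x, x ∉ C → ∀ y ∈ C, ∀ z ∈ C, y < x → x < z → ¬ IsChain (· ≤ ·) (insert x C)) ∧
        ∃ f : α → ℕ,
          ((∀ x ∈ C, ∀ y ∈ C, x ≤ y → f x ≤ f y) ∧
            ∀ i : ℕ, Set.Infinite {x | x ∈ C ∧ f x = i} ∧
              ¬ ∃ s : ℕ → α, StrictMono s ∧ ∀ n, s n ∈ C ∧ f (s n) = i) ∨
          ((∀ x ∈ C, ∀ y ∈ C, x ≤ y → f y ≤ f x) ∧
            ∀ i : ℕ, Set.Infinite {x | x ∈ C ∧ f x = i} ∧
              ¬ ∃ s : ℕ → α, StrictAnti s ∧ ∀ n, s n ∈ C ∧ f (s n) = i)) →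
    ∀ k : ℕ, 2 ≤ k →
      ∃ C : Fin k → Set α, (∀ j, IsChain (· ≤ ·) (C j)) ∧
        Pairwise (fun i j => Disjoint (C i) (C j)) ∧
        ∃ g : α → ℕ, ∀ i : ℕ, IsAntichain (· ≤ ·) {x | g x = i} ∧
          min (Set.encard {x | g x = i}) (k : ℕ∞) ≤
            Set.encard {j : Fin k | (C j ∩ {x | g x = i}).Nonempty}) := by
  intro h
  -- the disjoint union of chains of all finite sizes
  have fib : ∀ C : Set (Σ n : ℕ, Fin (n + 1)), IsChain (· ≤ ·) C → C.Finite := by
    intro C hC
    rcases C.eq_empty_or_nonempty with h0 | ⟨⟨m, a⟩, hm⟩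
    · rw [h0]; exact Set.finite_empty
    · have hsub : C ⊆ Set.range (fun b : Fin (m + 1) => (⟨m, b⟩ : Σ n : ℕ, Fin (n + 1))) := by
        rintro ⟨n, b⟩ hn
        have hmn : m = n := by
          by_cases he : (⟨m, a⟩ : Σ n : ℕ, Fin (n + 1)) = ⟨n, b⟩
          · exact congrArg Sigma.fst he
          · rcases hC hm hn he with h1 | h1
            · exact (Sigma.le_def.1 h1).1
            · exact (Sigma.le_def.1 h1).1.symm
        subst hmn
        exact ⟨b, rfl⟩
      exact (Set.finite_range _).subset hsub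
  obtain ⟨C, hC, -, g, hg⟩ := h (Σ n : ℕ, Fin (n + 1)) (by
    rintro ⟨C, hC, -, f, hf⟩
    have hfin := fib C hC
    rcases hf with ⟨-, hf⟩ | ⟨-, hf⟩ <;>
      exact (hf 0).1 (hfin.subset (fun x hx => hx.1))) 2 le_rfl
  have hCfin : ∀ j, (C j).Finite := fun j => fib _ (hC j)
  -- the set of all values of `g` is finite
  have hrange : (Set.range g).Finite := by
    have hU : (⋃ j, g '' (C j)).Finite := Set.finite_iUnion (fun j => (hCfin j).image g)
    refine hU.subset ?_
    rintro i ⟨x, rfl⟩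
    have h1 := (hg (g x)).2
    have h2 : (1 : ℕ∞) ≤ min (Set.encard {y | g y = g x}) ((2 : ℕ) : ℕ∞) := by
      refine le_min ?_ (by norm_num)
      rw [Set.one_le_encard_iff_nonempty]
      exact ⟨x, rfl⟩
    have h3 := h2.trans h1
    rw [Set.one_le_encard_iff_nonempty] at h3
    obtain ⟨j, y, hy1, hy2⟩ := h3
    exact Set.mem_iUnion.2 ⟨j, y, hy1, hy2⟩
  -- a long chain
  have hinj : Function.Injective
      (fun b : Fin (hrange.toFinset.card + 1) =>
        g (⟨hrange.toFinset.card, b⟩ : Σ n : ℕ, Fin (n + 1))) := by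
    intro a b hab
    by_contra hne
    have hanti := (hg (g ⟨hrange.toFinset.card, a⟩)).1
    rcases le_total a b with hle | hle
    · exact hanti (x := ⟨_, a⟩) rfl (y := ⟨_, b⟩) hab.symm
        (fun he => hne (by simpa using he)) (Sigma.le_def.2 ⟨rfl, by simpa using hle⟩)
    · exact hanti (x := ⟨_, b⟩) hab.symm (y := ⟨_, a⟩) rfl
        (fun he => hne (by simpa using he.symm)) (Sigma.le_def.2 ⟨rfl, by simpa using hle⟩)
  have hcard : (Finset.univ.image (fun b : Fin (hrange.toFinset.card + 1) =>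
        g (⟨hrange.toFinset.card, b⟩ : Σ n : ℕ, Fin (n + 1)))).card ≤ hrange.toFinset.card := by
    apply Finset.card_le_card
    intro i hi
    rw [Finset.mem_image] at hi
    obtain ⟨b, -, rfl⟩ := hi
    rw [Set.Finite.mem_toFinset]
    exact ⟨_, rfl⟩
  rw [Finset.card_image_of_injective _ hinj, Finset.card_univ, Fintype.card_fin] at hcard
  omega

end Pool.Agent.S07574
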