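import Pool.Statements.S08570
import Pool.Agent.T9h25.TH.Plane4

/-!
There is no finite projective plane with a quasiregular collineation group of type (h).

Let `n = k ^ 2`, `M = k ^ 2 - k + 1`.  The stabilizers of the points of the short orbits are `2 k`
subgroups `K i` of order `M` with pairwise trivial intersection, so the group `G` is abelian of
order `M ^ 2`; a line with trivial stabilizer gives a set `D` with `D D⁻¹ = k ^ 2 + G - Σ K i` in
the group ring.  Counting elements of prime order in the `K i` shows that `M` is a prime power, so
some prime `q` dividing `k` has `-1` as a power modulo `M` (because `k ^ 3 = -1` modulo `M`).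
Then all coefficients of `y = D - Σ D K i + (2 k - 1) G` are divisible by the part of `q` in `k`,
because `y y⁻¹` is divisible by `k ^ 2`; since `y` has coefficients at least `-1` with sum `k ^ 4`
and sum of squares `k ^ 3 (3 k - 2)`, that part of `q` is `2`.  If `k = 2` modulo `4` one uses the
prime `3` instead, which divides `k` or `k - 1`, and which has `-1` as a power modulo `M` by
quadratic reciprocity.
-/

set_option autoImplicit false
open Pool Pool.MP_49949b_co

namespace Pool.Agent.S08570

/-- The negation of the preceding statement: Some finite projective plane of order n=k² has a quasiregular collineation group G with 2∣G∣>n²+n+1, ∣G∣=(n−k+1)², exactly 2k+1 point orbits, and no point or line fixed by all of G. -/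
theorem result :
    ¬ (∃ (P L : Type) (_ : Membership P L) (_ : Configuration.ProjectivePlane P L)
      (_ : Finite P) (G : Type) (_ : Group G) (_ : Finite G)
      (_ : MulAction G P) (_ : MulAction G L) (k : ℕ),
      Configuration.ProjectivePlane.order P L = k ^ 2 ∧
      FaithfulSMul G P ∧
      (∀ (g : G) (p : P) (l : L), p ∈ l ↔ g • p ∈ g • l) ∧
      (∀ (g : G) (p q : P), q ∈ MulAction.orbit G p → g • p = p → g • q = q) ∧
      (∀ (g : G) (l m : L), m ∈ MulAction.orbit G l → g • l = l → g • m = m) ∧
      2 * Nat.card G > (k ^ 2) ^ 2 + k ^ 2 + 1 ∧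
      Nat.card G = (k ^ 2 - k + 1) ^ 2 ∧
      Nat.card (MulAction.orbitRel.Quotient G P) = 2 * k + 1 ∧
      (¬ ∃ p : P, ∀ g : G, g • p = p) ∧
      (¬ ∃ l : L, ∀ g : G, g • l = l)) := by
  rintro ⟨P, L, iM, iP, fP, G, iG, fG, aP, aL, k, hord, hfaith, hinc, hqp, hql, hbig, hcard, horb,
    hnofp, hnofl⟩
  have fL : Finite L := Pool.Agent.T9h25.TH.finite_lines P L
  have hone : 1 < Configuration.ProjectivePlane.order P L :=
    Configuration.ProjectivePlane.one_lt_order P L
  have hk2 : 2 ≤ k := by
    rw [hord] at hone
    by_contra hlt
    have : k ≤ 1 := by omega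
    interval_cases k <;> simp at hone
  have hk3 : 3 ≤ k := by
    by_contra hlt
    have : k = 2 := by omega
    subst this
    rw [hcard] at hbig
    norm_num at hbig
  apply Pool.Agent.T9h25.TH.no_plane (P := P) (L := L) (G := G) (k := k) (M := k ^ 2 - k + 1)
  refine ⟨fP, hord, hk3, rfl, ?_, hinc, hqp, hql, hcard, horb, ?_, ?_⟩
  · intro g hg
    apply hfaith.eq_of_smul_eq_smul (α := P)
    intro p
    rw [hg p, one_smul]
  · intro p
    by_contra hcon
    push Not at hcon
    exact hnofp ⟨p, hcon⟩
  · intro l
    by_contra hcon
    push Not at hcon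
    exact hnofl ⟨l, hcon⟩

end Pool.Agent.S08570
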