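import Pool.Statements.S09354

set_option autoImplicit false
open Pool Pool.MP_6d0115_co

namespace Pool.Agent.S09354

open Finset Polynomial

/-- The D'Arcais polynomials. -/
noncomputable def D : ℕ → ℚ[X]
  | 0 => 1
  | (n+1) => C (1 / ((n : ℚ) + 1)) * (X * ∑ k : Fin (n+1),
      ((ArithmeticFunction.sigma 1 (k.val + 1) : ℕ) : ℚ[X]) * D (n - k.val))
  decreasing_by omega

lemma D_zero : D 0 = 1 := by rw [D]

lemma D_rec (n : ℕ) (hn : 1 ≤ n) : (n : ℚ[X]) * D n =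
    X * ∑ k ∈ Finset.Icc 1 n, ((ArithmeticFunction.sigma 1 k : ℕ) : ℚ[X]) * D (n - k) := by
  obtain ⟨m, rfl⟩ : ∃ m, n = m + 1 := ⟨n - 1, by omega⟩
  have h1 : ((m + 1 : ℕ) : ℚ[X]) = C ((m : ℚ) + 1) := by
    simp
  have hm : ((m : ℚ) + 1) ≠ 0 := by positivity
  rw [D, h1, ← mul_assoc, ← C_mul, mul_one_div_cancel hm, C_1, one_mul]
  congr 1
  rw [Finset.sum_fin_eq_sum_range]
  rw [Finset.range_eq_Ico, Finset.sum_Ico_eq_sum_range]
  rw [show Finset.Icc 1 (m+1) = Finset.Ico 1 (m+2) from by ext; simp; omega]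
  rw [Finset.sum_Ico_eq_sum_range]
  apply Finset.sum_congr (by simp)
  intro i hi
  simp only [Finset.mem_range] at hi
  have : 0 + i < m + 1 := by omega
  rw [dif_pos this]
  have e1 : 0 + i + 1 = 1 + i := by ring
  have e2 : m - (0 + i) = m + 1 - (1 + i) := by omega
  simp only [e1, e2]

set_option linter.unusedSectionVars false

section coeffs

variable (P : ℕ → ℚ[X]) (h0 : P 0 = 1)
  (hrec : ∀ n : ℕ, 1 ≤ n →
        (n : Polynomial ℚ) * P n =
          Polynomial.X * ∑ k ∈ Finset.Icc 1 n,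
            ((ArithmeticFunction.sigma 1 k : ℕ) : Polynomial ℚ) * P (n - k))

include h0 hrec

lemma coeff_rec (n k : ℕ) (hn : 1 ≤ n) : (n : ℚ) * (P n).coeff (k + 1) =
    ∑ m ∈ Finset.Icc 1 n, (ArithmeticFunction.sigma 1 m : ℚ) * (P (n - m)).coeff k := by
  have h := congrArg (fun p => p.coeff (k+1)) (hrec n hn)
  simp only [coeff_X_mul, finsetSum_coeff] at h
  rw [← C_eq_natCast, coeff_C_mul] at h
  rw [h]
  apply Finset.sum_congr rfl
  intro m _
  rw [← C_eq_natCast, coeff_C_mul]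

lemma coeff_zero (n : ℕ) (hn : 1 ≤ n) : (P n).coeff 0 = 0 := by
  have h := congrArg (fun p => p.coeff 0) (hrec n hn)
  simp only [coeff_X_mul_zero] at h
  rw [← C_eq_natCast, coeff_C_mul] at h
  have : (n : ℚ) ≠ 0 := by positivity
  simpa [this] using h

lemma coeff_one (n : ℕ) (hn : 1 ≤ n) :
    (P n).coeff 1 = (ArithmeticFunction.sigma 1 n : ℚ) / n := by
  have h := coeff_rec P h0 hrec n 0 hn
  have hn' : (n : ℚ) ≠ 0 := by positivity
  rw [eq_div_iff hn', mul_comm, h]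
  rw [Finset.sum_eq_single n]
  · simp [h0]
  · intro m hm hmn
    rw [Finset.mem_Icc] at hm
    rw [coeff_zero P h0 hrec (n - m) (by omega), mul_zero]
  · intro h
    exact absurd (Finset.mem_Icc.mpr ⟨hn, le_rfl⟩) h

end coeffs


/-- `s m = σ(m) / m`. -/
noncomputable def s (m : ℕ) : ℝ := (ArithmeticFunction.sigma 1 m : ℝ) / m

lemma s_eq (m : ℕ) : s m = ∑ d ∈ m.divisors, 1 / (d : ℝ) := by
  rcases Nat.eq_zero_or_pos m with rfl | hm
  · simp [s]
  · have hm' : (m : ℝ) ≠ 0 := by positivity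
    rw [s, ArithmeticFunction.sigma_one_apply]
    rw [← Nat.sum_div_divisors m (fun d => d)]
    push_cast
    rw [Finset.sum_div]
    apply Finset.sum_congr rfl
    intro d hd
    have hd' := Nat.dvd_of_mem_divisors hd
    have hd0 : (d : ℝ) ≠ 0 := by
      have := Nat.pos_of_mem_divisors hd
      positivity
    rw [Nat.cast_div hd' hd0]
    field_simp

lemma s_nonneg (m : ℕ) : 0 ≤ s m := by
  rw [s_eq]
  positivity

lemma one_le_s (m : ℕ) (hm : 1 ≤ m) : 1 ≤ s m := by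
  rw [s_eq]
  have h : (1 : ℕ) ∈ m.divisors := Nat.one_mem_divisors.mpr (by omega)
  calc (1 : ℝ) = 1 / ((1 : ℕ) : ℝ) := by simp
    _ ≤ _ := Finset.single_le_sum (f := fun d : ℕ => 1 / (d : ℝ)) (fun i _ => by positivity) h

/-- The convergent series. -/
noncomputable def w (d : ℕ) : ℝ := 1 / ((d : ℝ) * √d)

lemma w_nonneg (d : ℕ) : 0 ≤ w d := by
  unfold w
  positivity

lemma w_summable : Summable w := by
  have h : Summable (fun n : ℕ => 1 / (n : ℝ) ^ (3 / 2 : ℝ)) :=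
    Real.summable_one_div_nat_rpow.mpr (by norm_num)
  refine h.congr ?_
  intro d
  unfold w
  congr 1
  rw [Real.sqrt_eq_rpow]
  rcases Nat.eq_zero_or_pos d with rfl | hd
  · simp
  · have : (0 : ℝ) < d := by exact_mod_cast hd
    rw [show (3 / 2 : ℝ) = 1 + 1 / 2 by norm_num, Real.rpow_add this, Real.rpow_one]

noncomputable def Z : ℝ := ∑' d, w d

lemma Z_nonneg : 0 ≤ Z := tsum_nonneg w_nonneg

lemma s_sum (N m : ℕ) (hm : m ∈ Finset.Ioc 0 N) :
    s m = ∑ d ∈ Finset.Ioc 0 N, if d ∣ m then 1 / (d : ℝ) else 0 := by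
  rw [Finset.mem_Ioc] at hm
  rw [s_eq, ← Finset.sum_filter]
  apply Finset.sum_congr _ (fun _ _ => rfl)
  ext d
  simp only [Nat.mem_divisors, Finset.mem_filter, Finset.mem_Ioc]
  constructor
  · rintro ⟨h1, h2⟩
    have := Nat.le_of_dvd hm.1 h1
    have := Nat.pos_of_dvd_of_pos h1 hm.1
    exact ⟨⟨by omega, by omega⟩, h1⟩
  · rintro ⟨h1, h2⟩
    exact ⟨h2, by omega⟩

lemma count_le (N a b : ℕ) (ha : a ∈ Finset.Ioc 0 N) (hb : b ∈ Finset.Ioc 0 N) :
    (((Finset.Ioc 0 N).filter (fun m => a ∣ m ∧ b ∣ m)).card : ℝ) ≤ N * (1 / (√a * √b)) := by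
  rw [Finset.mem_Ioc] at ha hb
  have ha' : (0 : ℝ) < a := by exact_mod_cast ha.1
  have hb' : (0 : ℝ) < b := by exact_mod_cast hb.1
  set c := ((Finset.Ioc 0 N).filter (fun m => a ∣ m ∧ b ∣ m)).card with hc
  have h1 : (c : ℝ) ≤ N / a := by
    have h : c ≤ N / a := by
      rw [← Nat.Ioc_filter_dvd_card_eq_div N a, hc]
      apply Finset.card_le_card
      intro x hx
      simp only [Finset.mem_filter] at hx ⊢
      exact ⟨hx.1, hx.2.1⟩
    calc (c : ℝ) ≤ ((N / a : ℕ) : ℝ) := by exact_mod_cast h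
      _ ≤ N / a := Nat.cast_div_le
  have h2 : (c : ℝ) ≤ N / b := by
    have h : c ≤ N / b := by
      rw [← Nat.Ioc_filter_dvd_card_eq_div N b, hc]
      apply Finset.card_le_card
      intro x hx
      simp only [Finset.mem_filter] at hx ⊢
      exact ⟨hx.1, hx.2.2⟩
    calc (c : ℝ) ≤ ((N / b : ℕ) : ℝ) := by exact_mod_cast h
      _ ≤ N / b := Nat.cast_div_le
  have hc0 : (0 : ℝ) ≤ c := by positivity
  have h3 : (c : ℝ) ^ 2 ≤ (N * (1 / (√a * √b))) ^ 2 := by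
    calc (c : ℝ) ^ 2 = c * c := by ring
      _ ≤ (N / a) * (N / b) := mul_le_mul h1 h2 hc0 (by positivity)
      _ = (N * (1 / (√a * √b))) ^ 2 := by
        have e1 : √(a : ℝ) ^ 2 = a := Real.sq_sqrt ha'.le
        have e2 : √(b : ℝ) ^ 2 = b := Real.sq_sqrt hb'.le
        rw [mul_pow, div_pow, mul_pow, e1, e2]
        field_simp
  exact le_of_sq_le_sq h3 (by positivity)

lemma sq_sum (N : ℕ) : ∑ m ∈ Finset.Ioc 0 N, (s m) ^ 2 ≤ Z ^ 2 * N := by
  have h1 : ∑ m ∈ Finset.Ioc 0 N, (s m) ^ 2 =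
      ∑ a ∈ Finset.Ioc 0 N, ∑ b ∈ Finset.Ioc 0 N,
        (1 / (a : ℝ)) * (1 / (b : ℝ)) * (((Finset.Ioc 0 N).filter (fun m => a ∣ m ∧ b ∣ m)).card : ℝ) := by
    have h2 : ∀ m ∈ Finset.Ioc 0 N, (s m) ^ 2 = ∑ a ∈ Finset.Ioc 0 N, ∑ b ∈ Finset.Ioc 0 N,
        (if a ∣ m ∧ b ∣ m then (1 / (a : ℝ)) * (1 / (b : ℝ)) else 0) := by
      intro m hm
      rw [s_sum N m hm, sq, Finset.sum_mul_sum]
      refine Finset.sum_congr rfl fun a _ => Finset.sum_congr rfl fun b _ => ?_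
      by_cases h1 : a ∣ m <;> by_cases h2 : b ∣ m <;> simp [h1, h2]
    rw [Finset.sum_congr rfl h2, Finset.sum_comm]
    refine Finset.sum_congr rfl fun a _ => ?_
    rw [Finset.sum_comm]
    refine Finset.sum_congr rfl fun b _ => ?_
    rw [← Finset.sum_filter, Finset.sum_const, nsmul_eq_mul]
    ring
  rw [h1]
  have h3 : ∑ a ∈ Finset.Ioc 0 N, ∑ b ∈ Finset.Ioc 0 N,
        (1 / (a : ℝ)) * (1 / (b : ℝ)) * (((Finset.Ioc 0 N).filter (fun m => a ∣ m ∧ b ∣ m)).card : ℝ)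
      ≤ ∑ a ∈ Finset.Ioc 0 N, ∑ b ∈ Finset.Ioc 0 N, (N : ℝ) * (w a * w b) := by
    refine Finset.sum_le_sum fun a ha => Finset.sum_le_sum fun b hb => ?_
    have h4 := count_le N a b ha hb
    have : (0 : ℝ) ≤ (1 / (a : ℝ)) * (1 / (b : ℝ)) := by positivity
    calc _ ≤ (1 / (a : ℝ)) * (1 / (b : ℝ)) * (N * (1 / (√a * √b))) :=
          mul_le_mul_of_nonneg_left h4 this
      _ = (N : ℝ) * (w a * w b) := by
        unfold w
        rw [Finset.mem_Ioc] at ha hb
        have ha' : (0 : ℝ) < a := by exact_mod_cast ha.1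
        have hb' : (0 : ℝ) < b := by exact_mod_cast hb.1
        have : 0 < √(a : ℝ) := Real.sqrt_pos.mpr ha'
        have : 0 < √(b : ℝ) := Real.sqrt_pos.mpr hb'
        field_simp
  refine h3.trans ?_
  have h5 : ∑ a ∈ Finset.Ioc 0 N, ∑ b ∈ Finset.Ioc 0 N, (N : ℝ) * (w a * w b) =
      N * ((∑ a ∈ Finset.Ioc 0 N, w a) * (∑ b ∈ Finset.Ioc 0 N, w b)) := by
    rw [Finset.sum_mul_sum, Finset.mul_sum]
    refine Finset.sum_congr rfl fun a _ => ?_
    rw [Finset.mul_sum]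
  rw [h5]
  have h6 : ∑ a ∈ Finset.Ioc 0 N, w a ≤ Z := w_summable.sum_le_tsum _ (fun i _ => w_nonneg i)
  have h7 : 0 ≤ ∑ a ∈ Finset.Ioc 0 N, w a := Finset.sum_nonneg fun i _ => w_nonneg i
  have h8 : (∑ a ∈ Finset.Ioc 0 N, w a) * (∑ b ∈ Finset.Ioc 0 N, w b) ≤ Z * Z :=
    mul_le_mul h6 h6 h7 Z_nonneg
  calc (N : ℝ) * ((∑ a ∈ Finset.Ioc 0 N, w a) * (∑ b ∈ Finset.Ioc 0 N, w b)) ≤ N * (Z * Z) :=
        mul_le_mul_of_nonneg_left h8 (by positivity)
    _ = _ := by ring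

/-- `σ(n) / n` is unbounded. -/
lemma s_unbounded (B : ℝ) : ∃ n : ℕ, 4 ≤ n ∧ B < s n := by
  have h := Real.tendsto_sum_range_one_div_nat_succ_atTop
  obtain ⟨K, hK1, hK2⟩ := ((h.eventually_gt_atTop B).and (Filter.eventually_ge_atTop 4)).exists
  refine ⟨K.factorial, ?_, ?_⟩
  · calc 4 ≤ K := hK2
      _ ≤ K.factorial := Nat.self_le_factorial K
  · refine hK1.trans_le ?_
    rw [s_eq]
    have h1 : ∑ i ∈ Finset.range K, 1 / ((i : ℝ) + 1) =
        ∑ d ∈ Finset.Icc 1 K, 1 / (d : ℝ) := by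
      rw [show Finset.Icc 1 K = Finset.Ico 1 (K+1) from by ext; simp]
      rw [Finset.sum_Ico_eq_sum_range]
      refine Finset.sum_congr (by simp) fun i _ => ?_
      push_cast
      rw [add_comm]
    rw [h1]
    apply Finset.sum_le_sum_of_subset_of_nonneg
    · intro d hd
      rw [Finset.mem_Icc] at hd
      rw [Nat.mem_divisors]
      exact ⟨Nat.dvd_factorial (by omega) hd.2, Nat.factorial_ne_zero K⟩
    · intro i _ _
      positivity

lemma sigma_eq (m : ℕ) : (ArithmeticFunction.sigma 1 m : ℝ) = m * s m := by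
  rcases Nat.eq_zero_or_pos m with rfl | hm
  · simp [s]
  · have : (m : ℝ) ≠ 0 := by positivity
    rw [s]
    field_simp

lemma sum_id (n : ℕ) : ∑ m ∈ Finset.range n, (m : ℝ) = n * (n - 1) / 2 := by
  induction n with
  | zero => simp
  | succ k ih => rw [Finset.sum_range_succ, ih]; push_cast; ring

lemma sum_sq' (n : ℕ) : ∑ m ∈ Finset.range n, (m : ℝ) ^ 2 = n * (n - 1) * (2 * n - 1) / 6 := by
  induction n with
  | zero => simp
  | succ k ih => rw [Finset.sum_range_succ, ih]; push_cast; ring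


section main

variable (P : ℕ → ℚ[X]) (h0 : P 0 = 1)
  (hrec : ∀ n : ℕ, 1 ≤ n →
        (n : Polynomial ℚ) * P n =
          Polynomial.X * ∑ k ∈ Finset.Icc 1 n,
            ((ArithmeticFunction.sigma 1 k : ℕ) : Polynomial ℚ) * P (n - k))

include h0 hrec

lemma one' (n : ℕ) (hn : 1 ≤ n) : (((P n).coeff 1 : ℚ) : ℝ) = s n := by
  rw [coeff_one P h0 hrec n hn, s]
  push_cast
  rfl

lemma two_rec (n : ℕ) (hn : 1 ≤ n) : (n : ℝ) * (((P n).coeff 2 : ℚ) : ℝ) =
    ∑ m ∈ Finset.Ico 1 n, (m * s m) * s (n - m) := by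
  have h := coeff_rec P h0 hrec n 1 hn
  have h' : (n : ℝ) * (((P n).coeff 2 : ℚ) : ℝ) =
      ∑ m ∈ Finset.Icc 1 n, (ArithmeticFunction.sigma 1 m : ℝ) * (((P (n - m)).coeff 1 : ℚ) : ℝ) := by
    have := congrArg (fun q : ℚ => (q : ℝ)) h
    push_cast at this
    exact this
  rw [h', show Finset.Icc 1 n = insert n (Finset.Ico 1 n) from by ext; simp; omega,
    Finset.sum_insert (by simp)]
  have : (P (n - n)).coeff 1 = 0 := by simp [h0, Polynomial.coeff_one]
  rw [this]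
  simp only [Rat.cast_zero, mul_zero, zero_add]
  refine Finset.sum_congr rfl fun m hm => ?_
  rw [Finset.mem_Ico] at hm
  rw [one' P h0 hrec (n - m) (by omega), sigma_eq]

lemma two_le (n : ℕ) (hn : 1 ≤ n) : (((P n).coeff 2 : ℚ) : ℝ) ≤ Z ^ 2 * n := by
  have h := two_rec P h0 hrec n hn
  have hn' : (0 : ℝ) < n := by exact_mod_cast hn
  have h1 : ∑ m ∈ Finset.Ico 1 n, (m * s m) * s (n - m) ≤ n * (Z ^ 2 * n) := by
    calc ∑ m ∈ Finset.Ico 1 n, (m * s m) * s (n - m)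
        ≤ ∑ m ∈ Finset.Ico 1 n, n * ((s m ^ 2 + s (n - m) ^ 2) / 2) := by
          refine Finset.sum_le_sum fun m hm => ?_
          rw [Finset.mem_Ico] at hm
          have hmn : (m : ℝ) ≤ n := by exact_mod_cast hm.2.le
          have h1 : 0 ≤ s m * s (n - m) := mul_nonneg (s_nonneg m) (s_nonneg _)
          have h2 : s m * s (n - m) ≤ (s m ^ 2 + s (n - m) ^ 2) / 2 := by
            nlinarith [sq_nonneg (s m - s (n - m))]
          calc (m * s m) * s (n - m) = m * (s m * s (n - m)) := by ring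
            _ ≤ n * (s m * s (n - m)) := mul_le_mul_of_nonneg_right hmn h1
            _ ≤ _ := mul_le_mul_of_nonneg_left h2 hn'.le
      _ = n * ((∑ m ∈ Finset.Ico 1 n, s m ^ 2 + ∑ m ∈ Finset.Ico 1 n, s (n - m) ^ 2) / 2) := by
          rw [← Finset.mul_sum, ← Finset.sum_div, Finset.sum_add_distrib]
      _ ≤ n * ((Z ^ 2 * n + Z ^ 2 * n) / 2) := by
          have h3 : ∑ m ∈ Finset.Ico 1 n, s m ^ 2 ≤ Z ^ 2 * n := by
            refine le_trans ?_ (sq_sum n)
            apply Finset.sum_le_sum_of_subset_of_nonneg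
            · intro m hm
              rw [Finset.mem_Ico] at hm
              rw [Finset.mem_Ioc]
              omega
            · intro i _ _
              positivity
          have h4 : ∑ m ∈ Finset.Ico 1 n, s (n - m) ^ 2 ≤ Z ^ 2 * n := by
            refine le_trans (le_of_eq ?_) h3
            refine Finset.sum_bij' (fun m _ => n - m) (fun m _ => n - m) ?_ ?_ ?_ ?_ ?_
            · intro m hm; rw [Finset.mem_Ico] at hm ⊢; omega
            · intro m hm; rw [Finset.mem_Ico] at hm ⊢; omega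
            · intro m hm; rw [Finset.mem_Ico] at hm; omega
            · intro m hm; rw [Finset.mem_Ico] at hm; omega
            · intro m hm; rfl
          have : (∑ m ∈ Finset.Ico 1 n, s m ^ 2 + ∑ m ∈ Finset.Ico 1 n, s (n - m) ^ 2) / 2 ≤
              (Z ^ 2 * n + Z ^ 2 * n) / 2 := by linarith
          exact mul_le_mul_of_nonneg_left this hn'.le
      _ = _ := by ring
  rw [← h] at h1
  exact le_of_mul_le_mul_left h1 hn'

lemma le_two (n : ℕ) (hn : 1 ≤ n) : ((n : ℝ) - 1) / 2 ≤ (((P n).coeff 2 : ℚ) : ℝ) := by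
  have h := two_rec P h0 hrec n hn
  have hn' : (0 : ℝ) < n := by exact_mod_cast hn
  have h1 : n * (((n : ℝ) - 1) / 2) ≤ ∑ m ∈ Finset.Ico 1 n, (m * s m) * s (n - m) := by
    calc n * (((n : ℝ) - 1) / 2) = ∑ m ∈ Finset.range n, (m : ℝ) := by rw [sum_id]; ring
      _ = ∑ m ∈ Finset.Ico 1 n, (m : ℝ) := by
        rw [Finset.range_eq_Ico, Finset.sum_eq_sum_Ico_succ_bot (by omega)]
        simp
      _ ≤ _ := by
        refine Finset.sum_le_sum fun m hm => ?_
        rw [Finset.mem_Ico] at hm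
        have h1 := one_le_s m hm.1
        have h2 := one_le_s (n - m) (by omega)
        have hm0 : (0 : ℝ) ≤ m := by positivity
        calc (m : ℝ) = (m * 1) * 1 := by ring
          _ ≤ (m * s m) * s (n - m) :=
            mul_le_mul (mul_le_mul_of_nonneg_left h1 hm0) h2 (by norm_num)
              (mul_nonneg hm0 (s_nonneg m))
  rw [← h] at h1
  exact le_of_mul_le_mul_left h1 hn'

lemma le_three (n : ℕ) (hn : 1 ≤ n) :
    ((n : ℝ) - 1) * (n - 2) / 12 ≤ (((P n).coeff 3 : ℚ) : ℝ) := by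
  have h := coeff_rec P h0 hrec n 2 hn
  have hn' : (0 : ℝ) < n := by exact_mod_cast hn
  have h' : (n : ℝ) * (((P n).coeff 3 : ℚ) : ℝ) =
      ∑ m ∈ Finset.Icc 1 n, (ArithmeticFunction.sigma 1 m : ℝ) * (((P (n - m)).coeff 2 : ℚ) : ℝ) := by
    have := congrArg (fun q : ℚ => (q : ℝ)) h
    push_cast at this
    exact this
  rw [show Finset.Icc 1 n = insert n (Finset.Ico 1 n) from by ext; simp; omega,
    Finset.sum_insert (by simp)] at h'
  have : (P (n - n)).coeff 2 = 0 := by simp [h0, Polynomial.coeff_one]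
  rw [this] at h'
  simp only [Rat.cast_zero, mul_zero, zero_add] at h'
  have h1 : n * (((n : ℝ) - 1) * (n - 2) / 12) ≤
      ∑ m ∈ Finset.Ico 1 n, (ArithmeticFunction.sigma 1 m : ℝ) * (((P (n - m)).coeff 2 : ℚ) : ℝ) := by
    calc n * (((n : ℝ) - 1) * (n - 2) / 12)
        = ∑ m ∈ Finset.range n, (m : ℝ) * ((n - 1) / 2) - ∑ m ∈ Finset.range n, (m : ℝ) ^ 2 / 2 := by
          rw [← Finset.sum_mul, ← Finset.sum_div, sum_id, sum_sq']; ring
      _ = ∑ m ∈ Finset.range n, (m : ℝ) * ((n - m - 1) / 2) := by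
          rw [← Finset.sum_sub_distrib]
          refine Finset.sum_congr rfl fun m _ => ?_
          ring
      _ = ∑ m ∈ Finset.Ico 1 n, (m : ℝ) * ((n - m - 1) / 2) := by
        rw [Finset.range_eq_Ico, Finset.sum_eq_sum_Ico_succ_bot (by omega)]
        simp
      _ ≤ _ := by
        refine Finset.sum_le_sum fun m hm => ?_
        rw [Finset.mem_Ico] at hm
        have h1 := le_two P h0 hrec (n - m) (by omega)
        rw [Nat.cast_sub hm.2.le] at h1
        have h2 : (m : ℝ) ≤ (ArithmeticFunction.sigma 1 m : ℝ) := by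
          rw [sigma_eq]
          have h1 := one_le_s m hm.1
          have hm0 : (0 : ℝ) ≤ m := by positivity
          nlinarith
        have h3 : (0 : ℝ) ≤ (n - m - 1) / 2 := by
          have : (m : ℝ) + 1 ≤ n := by exact_mod_cast hm.2
          linarith
        exact mul_le_mul h2 h1 h3 (by positivity)
  rw [← h'] at h1
  exact le_of_mul_le_mul_left h1 hn'

end main

/-- The negation of the preceding statement: If P_0=1 and n·P_n = x·Σ_{k=1}^n σ(k)P_{n-k} (the D'Arcais polynomials), then for all n and k≥1 the coefficients of P_n satisfy a_{k-1}a_{k+1} ≤ a_k². -/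
theorem result :
    ¬ (∀ P : ℕ → Polynomial ℚ, P 0 = 1 →
      (∀ n : ℕ, 1 ≤ n →
        (n : Polynomial ℚ) * P n =
          Polynomial.X * ∑ k ∈ Finset.Icc 1 n,
            ((ArithmeticFunction.sigma 1 k : ℕ) : Polynomial ℚ) * P (n - k)) →
      ∀ n k : ℕ, 1 ≤ k →
        (P n).coeff (k - 1) * (P n).coeff (k + 1) ≤ (P n).coeff k ^ 2) := by
  intro H
  obtain ⟨n, hn4, hn⟩ := s_unbounded (32 * (Z ^ 2) ^ 2)
  have h1 := H D D_zero D_rec n 2 (by norm_num)
  have h2 : (((D n).coeff 1 : ℚ) : ℝ) * (((D n).coeff 3 : ℚ) : ℝ) ≤ (((D n).coeff 2 : ℚ) : ℝ) ^ 2 := by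
    exact_mod_cast h1
  have hn1 : 1 ≤ n := by omega
  have hnR : (4 : ℝ) ≤ n := by exact_mod_cast hn4
  rw [one' D D_zero D_rec n hn1] at h2
  have h3 := le_three D D_zero D_rec n hn1
  have h4 := two_le D D_zero D_rec n hn1
  have h5 := le_two D D_zero D_rec n hn1
  have h6 : (((D n).coeff 2 : ℚ) : ℝ) ^ 2 ≤ (Z ^ 2 * n) ^ 2 :=
    pow_le_pow_left₀ (by linarith) h4 2
  have h7 : s n * (((n : ℝ) - 1) * (n - 2) / 12) ≤ s n * (((D n).coeff 3 : ℚ) : ℝ) :=
    mul_le_mul_of_nonneg_left h3 (s_nonneg n)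
  have h8 : (n : ℝ) ^ 2 / 32 ≤ ((n : ℝ) - 1) * (n - 2) / 12 := by nlinarith
  have h9 : s n * ((n : ℝ) ^ 2 / 32) ≤ (Z ^ 2 * n) ^ 2 := by
    calc s n * ((n : ℝ) ^ 2 / 32) ≤ s n * (((n : ℝ) - 1) * (n - 2) / 12) :=
          mul_le_mul_of_nonneg_left h8 (s_nonneg n)
      _ ≤ _ := h7.trans (h2.trans h6)
  have h10 : (32 * (Z ^ 2) ^ 2) * ((n : ℝ) ^ 2 / 32) < s n * ((n : ℝ) ^ 2 / 32) :=
    mul_lt_mul_of_pos_right hn (by positivity)
  have h11 : (32 * (Z ^ 2) ^ 2) * ((n : ℝ) ^ 2 / 32) = (Z ^ 2 * n) ^ 2 := by ring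
  linarith

end Pool.Agent.S09354
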