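import Pool.Statements.S12199
import Pool.Agent.T9lead.Tour
import Pool.Agent.T9lead.Wirt

set_option autoImplicit false
open Pool Pool.MP_ea35a0_co

namespace Pool.Agent.S12199

open Pool.Agent.T9lead Finset

lemma sum_zmod (L : ℕ) [NeZero L] (h : ℕ → ℝ) :
    ∑ i : ZMod L, h i.val = ∑ i ∈ range L, h i := by
  obtain ⟨k, rfl⟩ : ∃ k, L = k + 1 := ⟨L - 1, by have := NeZero.pos L; omega⟩
  exact Fin.sum_univ_eq_sum_range h (k + 1)

/-- The sharp form: the path is extremal for every number of edges. -/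
theorem sharp {n : ℕ} (G : SimpleGraph (Fin n)) [DecidableRel G.Adj] (hG : G.Connected)
    (hm : 1 ≤ G.edgeFinset.card) (f : Fin n → ℝ) : ∃ c : ℝ,
      (1 - Real.cos (Real.pi / G.edgeFinset.card)) * ∑ v, (G.degree v : ℝ) * (f v - c) ^ 2 ≤
        (1 / 2 : ℝ) * ∑ u, ∑ v, (if G.Adj u v then (f u - f v) ^ 2 else 0) := by
  classical
  obtain ⟨u, w, h1, h2⟩ := Tour.exists_tour hG
  have hL : w.length = 2 * G.edgeFinset.card := by
    rw [← SimpleGraph.Walk.length_darts, ← List.toFinset_card_of_nodup h1,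
      ← SimpleGraph.dart_card_eq_twice_card_edges, ← Finset.card_univ]
    congr 1
    ext d; simp [h2 d]
  have hL2 : 2 ≤ w.length := by omega
  have : NeZero w.length := ⟨by omega⟩
  set L := w.length with hLdef
  set c : ℝ := (∑ i ∈ range L, f (w.getVert i)) / L with hc
  have hLpos : (0 : ℝ) < L := by positivity
  refine ⟨c, ?_⟩
  have key := Wirt.wirtinger hL2 (fun i : ZMod L => f (w.getVert i.val) - c) (by
    rw [sum_zmod L (fun i => f (w.getVert i) - c), sum_sub_distrib, sum_const, card_range, hc,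
      nsmul_eq_mul, mul_div_cancel₀ _ hLpos.ne', sub_self])
  have hshift : ∀ i : ZMod L, w.getVert (i + 1).val = w.getVert (i.val + 1) := by
    intro i
    have e : (i + 1).val = (i.val + 1) % L := by
      rw [ZMod.val_add, ZMod.val_one_eq_one_mod, Nat.add_mod_mod]
    rw [e]
    have hi : i.val < L := ZMod.val_lt i
    rcases Nat.lt_or_ge (i.val + 1) L with h | h
    · rw [Nat.mod_eq_of_lt h]
    · have : i.val + 1 = L := by omega
      rw [this, Nat.mod_self, SimpleGraph.Walk.getVert_zero, hLdef, SimpleGraph.Walk.getVert_length]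
  simp only [hshift] at key
  rw [sum_zmod L (fun i => (f (w.getVert i) - c) ^ 2),
    sum_zmod L (fun i => (f (w.getVert (i + 1)) - c - (f (w.getVert i) - c)) ^ 2)] at key
  have s1 := Tour.sum_tour h1 h2 (fun a _ => (f a - c) ^ 2)
  have s2 := Tour.sum_tour h1 h2 (fun a b => (f b - c - (f a - c)) ^ 2)
  rw [s1, s2] at key
  have e1 : ∑ a, ∑ b, (if G.Adj a b then (f a - c) ^ 2 else 0)
      = ∑ v, (G.degree v : ℝ) * (f v - c) ^ 2 := by
    refine sum_congr rfl fun a _ => ?_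
    rw [← sum_filter, sum_const, nsmul_eq_mul, ← G.card_neighborFinset_eq_degree a]
    congr 3
    ext b; simp
  have e2 : ∑ a, ∑ b, (if G.Adj a b then (f b - c - (f a - c)) ^ 2 else 0)
      = ∑ u, ∑ v, (if G.Adj u v then (f u - f v) ^ 2 else 0) := by
    refine sum_congr rfl fun a _ => sum_congr rfl fun b _ => ?_
    congr 1; ring
  have e3 : 2 * Real.pi / (L : ℝ) = Real.pi / G.edgeFinset.card := by
    have : (L : ℝ) = 2 * G.edgeFinset.card := by exact_mod_cast hL
    rw [this, mul_div_mul_left _ _ (two_ne_zero)]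
  rw [e1, e2, e3] at key
  linarith

/-- For every ε>0, every connected graph with enough edges m has simple-random-walk relaxation time (degree-weighted variance over edge Dirichlet form) at most (1+ε)·2m²/π², i.e. the path is asymptotically extremal. -/
theorem result :
    ∀ ε : ℝ, ε > 0 → ∃ M : ℕ, ∀ (n : ℕ) (G : SimpleGraph (Fin n)) [DecidableRel G.Adj],
      G.Connected → M ≤ G.edgeFinset.card →
      ∀ f : Fin n → ℝ, ∃ c : ℝ,
        ∑ v, (G.degree v : ℝ) * (f v - c) ^ 2 ≤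
          (1 + ε) * (2 * (G.edgeFinset.card : ℝ) ^ 2 / Real.pi ^ 2) *
            ((1 / 2 : ℝ) * ∑ u, ∑ v, (if G.Adj u v then (f u - f v) ^ 2 else 0)) := by
  intro ε hε
  obtain ⟨M, hM⟩ := exists_nat_gt (max 4 (4 / ε))
  refine ⟨M, fun n G _ hG hMm f => ?_⟩
  have hm4 : (4 : ℝ) < G.edgeFinset.card :=
    lt_of_lt_of_le (lt_of_le_of_lt (le_max_left _ _) hM) (by exact_mod_cast hMm)
  have hmε : 4 / ε < G.edgeFinset.card :=
    lt_of_lt_of_le (lt_of_le_of_lt (le_max_right _ _) hM) (by exact_mod_cast hMm)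
  obtain ⟨c, hc⟩ := sharp G hG (by
    have : (1 : ℝ) ≤ G.edgeFinset.card := by linarith
    exact_mod_cast this) f
  refine ⟨c, ?_⟩
  set m : ℝ := (G.edgeFinset.card : ℝ) with hmdef
  set S := ∑ v, (G.degree v : ℝ) * (f v - c) ^ 2 with hS
  set E := (1 / 2 : ℝ) * ∑ u, ∑ v, (if G.Adj u v then (f u - f v) ^ 2 else 0) with hE
  have hS0 : 0 ≤ S := sum_nonneg fun v _ => by positivity
  have hpi := Real.pi_pos
  have hpi4 : Real.pi < 4 := by linarith [Real.pi_lt_d2]
  have hmpos : 0 < m := by linarith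
  set x := Real.pi / m with hx
  have hx0 : 0 < x := by positivity
  have hx1 : x ≤ 1 := by rw [hx, div_le_one hmpos]; linarith
  have hcb := Real.cos_bound (x := x) (by rw [abs_of_pos hx0]; exact hx1)
  rw [abs_of_pos hx0] at hcb
  have hcb2 := (abs_le.1 hcb).2
  -- 1 - cos x ≥ x^2/2 - 5 x^4/96
  have hlow : x ^ 2 / 2 * (1 - 5 / 48 * x ^ 2) ≤ 1 - Real.cos x := by nlinarith
  have hxε : x < ε := by
    rw [hx, div_lt_iff₀ hmpos]
    rw [div_lt_iff₀ hε] at hmε
    nlinarith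
  have hx2 : x ^ 2 ≤ x := by nlinarith
  have hfac : 1 ≤ (1 + ε) * (1 - 5 / 48 * x ^ 2) := by nlinarith
  have hmx : 2 * m ^ 2 / Real.pi ^ 2 * (x ^ 2 / 2) = 1 := by
    rw [hx]; field_simp
  have hA : 0 ≤ (1 + ε) * (2 * m ^ 2 / Real.pi ^ 2) := by positivity
  calc S = 1 * S := (one_mul _).symm
    _ ≤ ((1 + ε) * (1 - 5 / 48 * x ^ 2)) * S := mul_le_mul_of_nonneg_right hfac hS0
    _ = (1 + ε) * (2 * m ^ 2 / Real.pi ^ 2) * ((x ^ 2 / 2 * (1 - 5 / 48 * x ^ 2)) * S) := by
        have : (1 + ε) * (2 * m ^ 2 / Real.pi ^ 2) * ((x ^ 2 / 2 * (1 - 5 / 48 * x ^ 2)) * S)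
          = (1 + ε) * (2 * m ^ 2 / Real.pi ^ 2 * (x ^ 2 / 2)) * ((1 - 5 / 48 * x ^ 2)) * S := by ring
        rw [this, hmx]; ring
    _ ≤ (1 + ε) * (2 * m ^ 2 / Real.pi ^ 2) * ((1 - Real.cos x) * S) := by
        apply mul_le_mul_of_nonneg_left _ hA
        exact mul_le_mul_of_nonneg_right hlow hS0
    _ ≤ (1 + ε) * (2 * m ^ 2 / Real.pi ^ 2) * E := mul_le_mul_of_nonneg_left hc hA

end Pool.Agent.S12199
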