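-- F_sigma-heredity of S_fin(Gamma, Omega)
import Pool.Statements.S12897

set_option autoImplicit false
open Pool Pool.MP_26524f_gt

namespace Pool.Agent.S12897

/-- the conditions on a cover in the statement: an open gamma-cover of `X` -/
def GCov (X : Set ℝ) (𝒰 : Set (Set ℝ)) : Prop :=
  (∀ U ∈ 𝒰, ∃ V : Set ℝ, IsOpen V ∧ U = V ∩ X) ∧ X ∉ 𝒰 ∧
    X ⊆ ⋃₀ 𝒰 ∧ 𝒰.Infinite ∧ ∀ x ∈ X, {U ∈ 𝒰 | x ∉ U}.Finite

/-- If no member of the gamma-cover of `Y` contains `X ∩ K`, then the sets `U ∪ (X \ K)` form a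
gamma-cover of `X`. Here `K` is closed and `X ∩ K ⊆ Y ⊆ X`. -/
theorem lift_cov {X Y K : Set ℝ} (hYX : Y ⊆ X) (hK : IsClosed K) (hXK : X ∩ K ⊆ Y)
    {𝒰 : Set (Set ℝ)} (h𝒰 : GCov Y 𝒰) (hno : ∀ U ∈ 𝒰, ¬ X ∩ K ⊆ U) :
    GCov X ((fun U => U ∪ (X \ K)) '' 𝒰) := by
  obtain ⟨h1, h2, h3, h4, h5⟩ := h𝒰
  refine ⟨?_, ?_, ?_, ?_, ?_⟩
  · rintro _ ⟨U, hU, rfl⟩
    obtain ⟨V, hV, rfl⟩ := h1 U hU
    refine ⟨V ∪ Kᶜ, hV.union hK.isOpen_compl, ?_⟩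
    ext x
    simp only [Set.mem_union, Set.mem_inter_iff, Set.mem_sdiff, Set.mem_compl_iff]
    constructor
    · rintro (⟨hx, hy⟩ | ⟨hx, hy⟩)
      · exact ⟨Or.inl hx, hYX hy⟩
      · exact ⟨Or.inr hy, hx⟩
    · rintro ⟨hx | hx, hy⟩
      · by_cases hk : x ∈ K
        · exact Or.inl ⟨hx, hXK ⟨hy, hk⟩⟩
        · exact Or.inr ⟨hy, hk⟩
      · exact Or.inr ⟨hy, hx⟩
  · rintro ⟨U, hU, hUX⟩
    refine hno U hU ?_
    rintro x ⟨hx, hk⟩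
    have : x ∈ U ∪ (X \ K) := by
      have h := hUX.ge hx
      exact h
    rcases this with h | h
    · exact h
    · exact absurd hk h.2
  · intro x hx
    by_cases hk : x ∈ K
    · obtain ⟨U, hU, hxU⟩ := h3 (hXK ⟨hx, hk⟩)
      exact ⟨_, ⟨U, hU, rfl⟩, Or.inl hxU⟩
    · obtain ⟨U, hU⟩ := h4.nonempty
      exact ⟨_, ⟨U, hU, rfl⟩, Or.inr ⟨hx, hk⟩⟩
  · intro hfin
    refine h4 (Set.Finite.of_finite_fibers _ hfin ?_)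
    rintro _ ⟨U₀, hU₀, rfl⟩
    obtain ⟨x, ⟨hx, hk⟩, hxU⟩ := Set.not_subset.1 (hno U₀ hU₀)
    refine (h5 x (hXK ⟨hx, hk⟩)).subset ?_
    rintro U ⟨hU, hUe⟩
    refine ⟨hU, fun hxU' => ?_⟩
    have h : x ∈ U₀ ∪ (X \ K) := by
      have h' : U ∪ (X \ K) = U₀ ∪ (X \ K) := hUe
      rw [← h']
      exact Or.inl hxU'
    rcases h with h | h
    · exact hxU h
    · exact h.2 hk
  · intro x hx
    by_cases hk : x ∈ K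
    · refine ((h5 x (hXK ⟨hx, hk⟩)).image (fun U => U ∪ (X \ K))).subset ?_
      rintro _ ⟨⟨U, hU, rfl⟩, hxU⟩
      exact ⟨U, ⟨hU, fun h => hxU (Or.inl h)⟩, rfl⟩
    · convert Set.finite_empty
      rw [Set.eq_empty_iff_forall_notMem]
      rintro _ ⟨⟨U, hU, rfl⟩, hxU⟩
      exact hxU (Or.inr ⟨hx, hk⟩)

/-- The selection for a closed part `X ∩ K` of `Y`. -/
theorem stage {X Y K : Set ℝ} (hYX : Y ⊆ X) (hK : IsClosed K) (hXK : X ∩ K ⊆ Y)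
    (hX : ∀ 𝒰 : ℕ → Set (Set ℝ), (∀ n, GCov X (𝒰 n)) →
      ∃ ℱ : ℕ → Set (Set ℝ), (∀ n, (ℱ n).Finite ∧ ℱ n ⊆ 𝒰 n) ∧
        ∀ F : Finset ℝ, (↑F : Set ℝ) ⊆ X → ∃ U ∈ (⋃ n, ℱ n), (↑F : Set ℝ) ⊆ U)
    (𝒰 : ℕ → Set (Set ℝ)) (h𝒰 : ∀ n, GCov Y (𝒰 n)) :
    ∃ ℱ : ℕ → Set (Set ℝ), (∀ n, (ℱ n).Finite ∧ ℱ n ⊆ 𝒰 n) ∧
      ∀ F : Finset ℝ, (↑F : Set ℝ) ⊆ X ∩ K → ∃ U ∈ (⋃ n, ℱ n), (↑F : Set ℝ) ⊆ U := by
  by_cases hno : ∀ n, ∀ U ∈ 𝒰 n, ¬ X ∩ K ⊆ U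
  · obtain ⟨ℱ, hℱ, hF⟩ := hX (fun n => (fun U => U ∪ (X \ K)) '' 𝒰 n)
      (fun n => lift_cov hYX hK hXK (h𝒰 n) (hno n))
    have hch : ∀ n, ∃ 𝒢 : Set (Set ℝ), 𝒢.Finite ∧ 𝒢 ⊆ 𝒰 n ∧ (fun U => U ∪ (X \ K)) '' 𝒢 = ℱ n := by
      intro n
      obtain ⟨h1, h2⟩ := hℱ n
      have hex : ∀ W : ℱ n, ∃ U ∈ 𝒰 n, U ∪ (X \ K) = W.1 := by
        rintro ⟨W, hW⟩
        obtain ⟨U, hU, hUW⟩ := h2 hW
        exact ⟨U, hU, hUW⟩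
      choose g hg1 hg2 using hex
      have : Finite (ℱ n) := h1
      refine ⟨Set.range g, Set.finite_range g, ?_, ?_⟩
      · rintro _ ⟨W, rfl⟩
        exact hg1 W
      · ext W
        constructor
        · rintro ⟨_, ⟨V, rfl⟩, rfl⟩
          have h := hg2 V
          change g V ∪ (X \ K) ∈ ℱ n
          rw [h]
          exact V.2
        · intro hW
          exact ⟨g ⟨W, hW⟩, ⟨_, rfl⟩, hg2 ⟨W, hW⟩⟩
    choose 𝒢 h𝒢f h𝒢s h𝒢i using hch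
    refine ⟨𝒢, fun n => ⟨h𝒢f n, h𝒢s n⟩, ?_⟩
    intro F hFK
    obtain ⟨W, hW, hFW⟩ := hF F (hFK.trans Set.inter_subset_left)
    obtain ⟨n, hn⟩ := Set.mem_iUnion.1 hW
    rw [← h𝒢i n] at hn
    obtain ⟨U, hU, rfl⟩ := hn
    refine ⟨U, Set.mem_iUnion.2 ⟨n, hU⟩, fun x hx => ?_⟩
    rcases hFW hx with h | h
    · exact h
    · exact absurd (hFK hx).2 h.2
  · push Not at hno
    obtain ⟨n, U, hU, hKU⟩ := hno
    refine ⟨fun k => if k = n then {U} else ∅, fun k => ?_, fun F hF => ?_⟩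
    · by_cases h : k = n
      · subst h
        simpa using hU
      · simp [h]
    · exact ⟨U, Set.mem_iUnion.2 ⟨n, by simp⟩, hF.trans hKU⟩

/-- If a set of reals has the property that from any sequence of open γ-covers one can pick finitely many sets from each so that together they form an open ω-cover, then every F_σ subset (relative to the set) has the same property. -/
theorem result :
    ∀ P : Set ℝ → Prop,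
      (∀ X : Set ℝ, P X ↔
        ∀ 𝒰 : ℕ → Set (Set ℝ),
          (∀ n, (∀ U ∈ 𝒰 n, ∃ V : Set ℝ, IsOpen V ∧ U = V ∩ X) ∧ X ∉ 𝒰 n ∧
              X ⊆ ⋃₀ (𝒰 n) ∧ (𝒰 n).Infinite ∧
              ∀ x ∈ X, {U ∈ 𝒰 n | x ∉ U}.Finite) →
          ∃ ℱ : ℕ → Set (Set ℝ), (∀ n, (ℱ n).Finite ∧ ℱ n ⊆ 𝒰 n) ∧
            X ∉ (⋃ n, ℱ n) ∧ X ⊆ ⋃₀ (⋃ n, ℱ n) ∧
            ∀ F : Finset ℝ, (↑F : Set ℝ) ⊆ X →
              ∃ U ∈ (⋃ n, ℱ n), (↑F : Set ℝ) ⊆ U) →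
      ∀ X Y : Set ℝ,
        (∃ K : ℕ → Set ℝ, (∀ n, IsClosed (K n)) ∧ Y = X ∩ (⋃ n, K n)) →
        P X → P Y := by
  rintro P hP X Y ⟨K, hK, hY⟩ hPX
  rw [hP] at hPX ⊢
  intro 𝒰 h𝒰
  have hYX : Y ⊆ X := hY ▸ Set.inter_subset_left
  have hX : ∀ 𝒰 : ℕ → Set (Set ℝ), (∀ n, GCov X (𝒰 n)) →
      ∃ ℱ : ℕ → Set (Set ℝ), (∀ n, (ℱ n).Finite ∧ ℱ n ⊆ 𝒰 n) ∧
        ∀ F : Finset ℝ, (↑F : Set ℝ) ⊆ X → ∃ U ∈ (⋃ n, ℱ n), (↑F : Set ℝ) ⊆ U := by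
    intro 𝒱 h𝒱
    obtain ⟨ℱ, h1, -, -, h2⟩ := hPX 𝒱 h𝒱
    exact ⟨ℱ, h1, h2⟩
  -- the increasing closed sets
  let C : ℕ → Set ℝ := fun m => ⋃ i ∈ Finset.range (m + 1), K i
  have hC : ∀ m, IsClosed (C m) := fun m =>
    isClosed_biUnion_finset fun i _ => hK i
  have hXC : ∀ m, X ∩ C m ⊆ Y := by
    rintro m x ⟨hx, hxC⟩
    simp only [C, Set.mem_iUnion] at hxC
    obtain ⟨i, _, hi⟩ := hxC
    rw [hY]
    exact ⟨hx, Set.mem_iUnion.2 ⟨i, hi⟩⟩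
  have hmono : ∀ m m', m ≤ m' → C m ⊆ C m' := by
    intro m m' h x hx
    simp only [C, Set.mem_iUnion] at hx ⊢
    obtain ⟨i, hi, hxi⟩ := hx
    exact ⟨i, Finset.mem_range.2 (lt_of_lt_of_le (Finset.mem_range.1 hi) (by omega)), hxi⟩
  have hst := fun m => stage hYX (hC m) (hXC m) hX (fun j => 𝒰 (Nat.pair m j))
    (fun j => h𝒰 (Nat.pair m j))
  choose ℱ hℱ hF using hst
  have hsub : ∀ n, ℱ n.unpair.1 n.unpair.2 ⊆ 𝒰 n := by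
    intro n
    have := (hℱ n.unpair.1 n.unpair.2).2
    rwa [Nat.pair_unpair] at this
  have hcov : ∀ F : Finset ℝ, (↑F : Set ℝ) ⊆ Y →
      ∃ U ∈ (⋃ n, ℱ (Nat.unpair n).1 (Nat.unpair n).2), (↑F : Set ℝ) ⊆ U := by
    intro F hFY
    have hm : ∃ m, (↑F : Set ℝ) ⊆ X ∩ C m := by
      classical
      induction F using Finset.induction_on with
      | empty => exact ⟨0, by simp⟩
      | insert a F ha ih =>
        rw [Finset.coe_insert, Set.insert_subset_iff] at hFY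
        obtain ⟨m, hm⟩ := ih hFY.2
        have ha' := hFY.1
        rw [hY] at ha'
        obtain ⟨haX, haK⟩ := ha'
        obtain ⟨i, hi⟩ := Set.mem_iUnion.1 haK
        refine ⟨max m i, ?_⟩
        rw [Finset.coe_insert, Set.insert_subset_iff]
        refine ⟨⟨haX, ?_⟩, hm.trans (Set.inter_subset_inter_right _ (hmono _ _ (le_max_left _ _)))⟩
        simp only [C, Set.mem_iUnion]
        exact ⟨i, Finset.mem_range.2 (by omega), hi⟩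
    obtain ⟨m, hm⟩ := hm
    obtain ⟨U, hU, hFU⟩ := hF m F hm
    obtain ⟨j, hj⟩ := Set.mem_iUnion.1 hU
    refine ⟨U, Set.mem_iUnion.2 ⟨Nat.pair m j, ?_⟩, hFU⟩
    rw [Nat.unpair_pair]
    exact hj
  refine ⟨fun n => ℱ n.unpair.1 n.unpair.2, fun n => ⟨(hℱ _ _).1, hsub n⟩, ?_, ?_, hcov⟩
  · intro h
    obtain ⟨n, hn⟩ := Set.mem_iUnion.1 h
    exact (h𝒰 n).2.1 (hsub n hn)
  · intro y hy
    obtain ⟨U, hU, hyU⟩ := hcov {y} (by simpa using hy)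
    exact ⟨U, hU, hyU (by simp)⟩

end Pool.Agent.S12897
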