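import Pool.Statements.S15144
import Pool.Agent.T9h91.WeirdFinal

set_option autoImplicit false
open Pool Pool.MP_a2ec29_lc

namespace Pool.Agent.S15144

/-- The negation of the preceding statement: Take any computable infinite linear order L and computable Boolean algebra B isomorphic to the algebra of finite unions of half-open intervals of L. Then some computable copy of L makes B computably isomorphic to that copy's interval algebra. -/
theorem result :
    ¬ (∀ (β : Type) [LinearOrder β] (l : ℕ ≃ β),
      ComputablePred (fun p : ℕ × ℕ => l p.1 ≤ l p.2) →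
      ∀ (α : Type) [BooleanAlgebra α] (e : ℕ ≃ α),
        Computable₂ (fun m n : ℕ => e.symm (e m ⊔ e n)) →
        Computable₂ (fun m n : ℕ => e.symm (e m ⊓ e n)) →
        Computable (fun n : ℕ => e.symm (e n)ᶜ) →
        (∃ φ : α → Set β, Function.Injective φ ∧
            (∀ a b, φ (a ⊔ b) = φ a ∪ φ b) ∧
            (∀ a, φ aᶜ = (φ a)ᶜ) ∧
            Set.range φ = {X : Set β | ∃ S : Finset β, ∃ b : Bool,
              X = {x : β | Xor' (b = true) (Odd (S.filter (fun s => s ≤ x)).card)}}) →
        ∃ l' : ℕ ≃ β, ComputablePred (fun p : ℕ × ℕ => l' p.1 ≤ l' p.2) ∧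
          ∃ ψ : α → Set β, Function.Injective ψ ∧
            (∀ a b, ψ (a ⊔ b) = ψ a ∪ ψ b) ∧
            (∀ a, ψ aᶜ = (ψ a)ᶜ) ∧
            Set.range ψ = {X : Set β | ∃ S : Finset β, ∃ b : Bool,
              X = {x : β | Xor' (b = true) (Odd (S.filter (fun s => s ≤ x)).card)}} ∧
            ∃ c : ℕ → List ℕ × Bool, Computable c ∧
              ∀ n : ℕ, ψ (e n) = {x : β | Xor' ((c n).2 = true)
                (Odd ((c n).1.filter (fun s => decide (l' s ≤ x))).length)}) := by
  intro hmain
  obtain ⟨l', _, ψ, hinj, hsup, hcompl, hrange, c, hc, hcc⟩ :=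
    hmain ℕ (Equiv.refl ℕ)
      (PrimrecPred.computablePred (Primrec.nat_le.comp Primrec.fst Primrec.snd))
      T9h91.WO.BA T9h91.WO.en
      (by
        have h : Computable₂ (fun m n : ℕ => T9h91.WO.cmp (T9h91.WO.meet (T9h91.WO.cmp m)
            (T9h91.WO.cmp n))) :=
          (T9h91.WO.cmp_primrec.comp (T9h91.WO.meet_primrec.comp
            (T9h91.WO.cmp_primrec.comp Primrec.fst)
            (T9h91.WO.cmp_primrec.comp Primrec.snd))).to_comp.to₂
        exact h.of_eq (fun p => (T9h91.WO.en_sup p.1 p.2).symm))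
      (by
        have h : Computable₂ T9h91.WO.meet := T9h91.WO.meet_primrec.to_comp
        exact h.of_eq (fun p => (T9h91.WO.en_inf p.1 p.2).symm))
      (T9h91.WO.cmp_primrec.to_comp.of_eq (fun n => (T9h91.WO.en_compl n).symm))
      ⟨fun a => (a : Set ℕ), Subtype.val_injective, fun _ _ => rfl, fun _ => rfl, by
        refine Eq.trans ?_ T9h91.WO.fam_eq.symm
        ext X
        constructor
        · rintro ⟨a, rfl⟩
          exact a.2
        · intro hX
          exact ⟨⟨X, hX⟩, rfl⟩⟩
  refine T9h91.WO.final l' ψ hinj hsup hcompl ?_ c hc hcc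
  rw [hrange]
  exact T9h91.WO.fam_eq

end Pool.Agent.S15144
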