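import Pool.Statements.S16186
import Pool.Agent.T9h93.NB.USB

set_option autoImplicit false
open Pool Pool.MP_19fd7d_nt

namespace Pool.Agent.S16186

/-- The negation of the preceding statement: If F in Q̄ is Galois over a number field K and has (USB) (for each rational map of degree at least 2, some c>0 leaves only finitely many points of F with canonical height below c), then F/K has finite local degree at infinitely many finite primes of K. -/
theorem result :
    ¬ (∀ h : AlgebraicClosure ℚ → ℝ,
      (∀ β : AlgebraicClosure ℚ, h β =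
        Real.log (((sInf {n : ℕ | 0 < n ∧ ∀ i : ℕ, ((n : ℚ) * (minpoly ℚ β).coeff i).den = 1} : ℕ) : ℝ) *
          (Polynomial.map (algebraMap ℚ ℂ) (minpoly ℚ β)).mahlerMeasure) /
          ((minpoly ℚ β).natDegree : ℝ)) →
    ∀ Φ : RatFunc (AlgebraicClosure ℚ) → AlgebraicClosure ℚ × AlgebraicClosure ℚ →
        AlgebraicClosure ℚ × AlgebraicClosure ℚ,
      (∀ (f : RatFunc (AlgebraicClosure ℚ)) (z : AlgebraicClosure ℚ × AlgebraicClosure ℚ),
        Φ f z =
          (∑ i ∈ Finset.range (max f.num.natDegree f.denom.natDegree + 1),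
              f.num.coeff i * z.1 ^ i * z.2 ^ (max f.num.natDegree f.denom.natDegree - i),
           ∑ i ∈ Finset.range (max f.num.natDegree f.denom.natDegree + 1),
              f.denom.coeff i * z.1 ^ i * z.2 ^ (max f.num.natDegree f.denom.natDegree - i))) →
    ∀ (K : IntermediateField ℚ (AlgebraicClosure ℚ)) [NumberField K]
      (F : IntermediateField K (AlgebraicClosure ℚ)),
      IsGalois K F →
      (∀ f : RatFunc (AlgebraicClosure ℚ),
        2 ≤ max f.num.natDegree f.denom.natDegree →
        ∃ c : ℝ, 0 < c ∧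
          Set.Finite {α : AlgebraicClosure ℚ | α ∈ F ∧ ∃ L : ℝ,
            Filter.Tendsto
              (fun n : ℕ => h (((Φ f)^[n] (α, 1)).1 / ((Φ f)^[n] (α, 1)).2) /
                ((max f.num.natDegree f.denom.natDegree : ℕ) : ℝ) ^ n)
              Filter.atTop (nhds L) ∧ L < c}) →
      Set.Infinite {v : IsDedekindDomain.HeightOneSpectrum (NumberField.RingOfIntegers K) |
        ∀ ι : AlgebraicClosure ℚ →ₐ[K] AlgebraicClosure (v.adicCompletion K),
          FiniteDimensional (v.adicCompletion K)
            (IntermediateField.adjoin (v.adicCompletion K)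
              (ι '' (F : Set (AlgebraicClosure ℚ))))}) := by
  intro H
  open Pool.Agent.T9h93.NB Pool.Agent.H58W in
  obtain ⟨K, D, ζ, h0, hfd, hstep, hgood⟩ := exists_tower
  classical
  set F : IntermediateField ℚ (AlgebraicClosure ℚ) := ⨆ i, K i with hF
  have hNF0 : NumberField (⊥ : IntermediateField ℚ (AlgebraicClosure ℚ)) :=
    { to_charZero := inferInstance
      to_finiteDimensional := inferInstance }
  let F' : IntermediateField (⊥ : IntermediateField ℚ (AlgebraicClosure ℚ)) (AlgebraicClosure ℚ) :=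
    IntermediateField.extendScalars (bot_le : (⊥ : IntermediateField ℚ (AlgebraicClosure ℚ)) ≤ F)
  have hmemF' : ∀ x, x ∈ F' ↔ x ∈ F := fun x => IntermediateField.mem_extendScalars _
  have halg : Algebra.IsAlgebraic (⊥ : IntermediateField ℚ (AlgebraicClosure ℚ))
      (AlgebraicClosure ℚ) :=
    ⟨fun x => ((Pool.Agent.H58P.qb_isIntegral x).tower_top).isAlgebraic⟩
  have hcl : IsAlgClosure (⊥ : IntermediateField ℚ (AlgebraicClosure ℚ)) (AlgebraicClosure ℚ) :=
    ⟨inferInstance, halg⟩
  have hnorm : Normal (⊥ : IntermediateField ℚ (AlgebraicClosure ℚ)) (AlgebraicClosure ℚ) :=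
    IsAlgClosure.normal _ _
  have hgal : IsGalois (⊥ : IntermediateField ℚ (AlgebraicClosure ℚ)) F' := by
    have hn : Normal (⊥ : IntermediateField ℚ (AlgebraicClosure ℚ)) F' := by
      rw [IntermediateField.normal_iff_forall_map_le]
      rintro σ _ ⟨x, hx, rfl⟩
      have h1 : x ∈ F := (hmemF' x).mp hx
      exact (hmemF' _).mpr (Pool.Agent.T9h93.NB.map_F K D ζ h0 hstep hgood (σ.restrictScalars ℚ)
        ⟨x, h1, rfl⟩)
    exact { to_normal := hn }
  have hfinal := H Pool.Agent.H58W.hM (fun β => rfl)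
    (fun f z => Pool.Agent.H58W.lift f.num f.denom (max f.num.natDegree f.denom.natDegree) z)
    (fun f z => rfl) ⊥ F' hgal (by
      intro f hf
      refine ⟨1, one_pos, ?_⟩
      obtain ⟨C, hC⟩ := Pool.Agent.T9h93.NB.ht_le_of_tendsto f.num f.denom
        (max f.num.natDegree f.denom.natDegree) rfl hf (RatFunc.isCoprime_num_denom f)
      refine (Pool.Agent.T9h93.NB.northcott_F K D ζ hfd hstep hgood (C + 1)).subset ?_
      rintro α ⟨hα, L, hL, hL1⟩
      exact ⟨(hmemF' α).mp hα, (hC α L hL).trans (by linarith)⟩)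
  apply hfinal
  have hfin : {v : IsDedekindDomain.HeightOneSpectrum
      (NumberField.RingOfIntegers (⊥ : IntermediateField ℚ (AlgebraicClosure ℚ))) |
      v.asIdeal ∣ Ideal.span {(2 : NumberField.RingOfIntegers
        (⊥ : IntermediateField ℚ (AlgebraicClosure ℚ)))}}.Finite := by
    apply Ideal.finite_factors
    rw [Ne, Ideal.zero_eq_bot, Ideal.span_singleton_eq_bot]
    exact two_ne_zero
  refine hfin.subset ?_
  intro v hv
  obtain ⟨p, hp, hpv⟩ := Pool.Agent.T9h93.NB.exists_residue_char v
  by_cases hp2 : p = 2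
  · subst hp2
    show v.asIdeal ∣ Ideal.span {_}
    rw [Ideal.dvd_span_singleton]
    exact_mod_cast hpv
  · exfalso
    have ι : AlgebraicClosure ℚ →ₐ[(⊥ : IntermediateField ℚ (AlgebraicClosure ℚ))]
        AlgebraicClosure (v.adicCompletion (⊥ : IntermediateField ℚ (AlgebraicClosure ℚ))) :=
      IsAlgClosed.lift
    have hfdv := hv ι
    set d := Module.finrank (v.adicCompletion (⊥ : IntermediateField ℚ (AlgebraicClosure ℚ)))
            (IntermediateField.adjoin
              (v.adicCompletion (⊥ : IntermediateField ℚ (AlgebraicClosure ℚ)))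
              (ι '' (F' : Set (AlgebraicClosure ℚ)))) with hd
    have hg := hgood (Nat.pair p d)
    obtain ⟨s, hs, hps⟩ := hg.odd
    have hlt := hg.lt
    have he := hg.e_eq
    rw [Pool.Agent.T9h93.NB.P_pair p d hp hp2] at hps hlt
    rw [Pool.Agent.T9h93.NB.J_pair p d] at he
    have hmem : (D (Nat.pair p d)).pi (ζ (Nat.pair p d)) 0 ∈ (F' : Set (AlgebraicClosure ℚ)) := by
      apply (hmemF' _).mpr
      have h1 : (D (Nat.pair p d)).pi (ζ (Nat.pair p d)) 0 ∈ K (Nat.pair p d + 1) := by
        rw [hstep]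
        exact (le_sup_right : _ ≤ K (Nat.pair p d) ⊔ _)
          (IntermediateField.mem_adjoin_simple_self ℚ _)
      exact (le_iSup K (Nat.pair p d + 1)) h1
    have h2 := Pool.Agent.T9h93.NB.local_degree (K0 := ⊥) rfl v p hp hpv
      (D (Nat.pair p d)) hlt s hs hps d he (ζ (Nat.pair p d)) hg.prim _ hmem ι hfdv
    rw [← hd] at h2
    have h3 : d < 2 ^ d := Nat.lt_two_pow_self
    omega

end Pool.Agent.S16186
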