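import Pool.Statements.S16915

set_option autoImplicit false
open MeasureTheory
open Pool Pool.MP_4fa6ed_nt

namespace Pool.Agent.S16915

/-- Arbitrarily long cliques: `x i = a₁ ^ i * u i` with `u i` coprime to `a₁`, and
`a₂ * (x j - x i)` divides `x i` for `i < j`, with all differences small compared to the terms. -/
theorem clique (a₁ a₂ : ℤ) (h1 : 0 < a₁) (h2 : 0 < a₂) (hc : IsCoprime a₁ a₂) (L : ℤ) :
    ∀ k : ℕ, ∃ x u : ℕ → ℤ,
      (∀ i, i < k → x i = a₁ ^ i * u i ∧ IsCoprime (u i) a₁ ∧ 0 < x i) ∧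
      (∀ i j, i < j → j < k → 0 < x j - x i ∧ a₂ * (x j - x i) ∣ x i ∧
        L * (x j - x i) ≤ x i) := by
  intro k
  induction k with
  | zero =>
    refine ⟨fun _ => 0, fun _ => 0, ?_, ?_⟩
    · intro i hi; omega
    · intro i j _ hj; omega
  | succ k ih =>
    obtain ⟨x, u, hx, hd⟩ := ih
    -- the part of the differences prime to a₁
    have he : ∀ i j, i < j → j < k → ∃ e : ℤ, x j - x i = a₁ ^ i * e ∧ IsCoprime e a₁ := by
      intro i j hij hj
      obtain ⟨hxi, hci, _⟩ := hx i (by omega)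
      obtain ⟨hxj, hcj, _⟩ := hx j hj
      refine ⟨a₁ ^ (j - i) * u j - u i, ?_, ?_⟩
      · rw [hxi, hxj]
        have : a₁ ^ j = a₁ ^ i * a₁ ^ (j - i) := by rw [← pow_add]; congr 1; omega
        rw [this]; ring
      · have : a₁ ^ (j - i) * u j - u i = -(u i) + a₁ * (a₁ ^ (j - i - 1) * u j) := by
          have h3 : a₁ ^ (j - i) = a₁ * a₁ ^ (j - i - 1) := by
            rw [← pow_succ']; congr 1; omega
          rw [h3]; ring
        rw [this]
        exact IsCoprime.add_mul_left_left (hci.neg_left) _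
    choose! e he1 he2 using he
    have hepos : ∀ i j, i < j → j < k → 0 < e i j := by
      intro i j hij hj
      have := (hd i j hij hj).1
      rw [he1 i j hij hj] at this
      exact (mul_pos_iff_of_pos_left (by positivity)).1 this
    -- P
    obtain ⟨P, hP0, hPc, hPa, hPe⟩ : ∃ P : ℤ, 0 < P ∧ IsCoprime P a₁ ∧ a₂ ∣ P ∧
        ∀ i j, i < j → j < k → a₂ * e i j ∣ P := by
      refine ⟨a₂ * ∏ i ∈ Finset.range k, ∏ j ∈ Finset.Ioo i k, e i j, ?_, ?_, ?_, ?_⟩
      · apply mul_pos h2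
        apply Finset.prod_pos
        intro i _
        apply Finset.prod_pos
        intro j hj
        rw [Finset.mem_Ioo] at hj
        exact hepos i j hj.1 hj.2
      · apply IsCoprime.mul_left hc.symm
        apply IsCoprime.prod_left
        intro i _
        apply IsCoprime.prod_left
        intro j hj
        rw [Finset.mem_Ioo] at hj
        exact he2 i j hj.1 hj.2
      · exact Dvd.intro _ rfl
      · intro i j hij hj
        apply mul_dvd_mul_left
        refine dvd_trans ?_ (Finset.dvd_prod_of_mem _ (Finset.mem_range.2 (by omega : i < k)))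
        exact Finset.dvd_prod_of_mem _ (Finset.mem_Ioo.2 ⟨hij, hj⟩)
    -- s
    obtain ⟨s, hs1, hs2, hs0, hslarge⟩ : ∃ s : ℤ, IsCoprime s a₁ ∧ IsCoprime s P ∧ 0 < s ∧
        ∀ i, i < k → P * x i < s := by
      refine ⟨1 + a₁ * (P * ∑ i ∈ Finset.range k, x i), ?_, ?_, ?_, ?_⟩
      · exact IsCoprime.add_mul_left_left isCoprime_one_left _
      · have : 1 + a₁ * (P * ∑ i ∈ Finset.range k, x i) = 1 + P * (a₁ * ∑ i ∈ Finset.range k, x i) := by
          ring
        rw [this]
        exact IsCoprime.add_mul_left_left isCoprime_one_left _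
      · have : 0 ≤ ∑ i ∈ Finset.range k, x i := Finset.sum_nonneg (fun i hi =>
          ((hx i (Finset.mem_range.1 hi)).2.2).le)
        positivity
      · intro i hi
        have h3 : x i ≤ ∑ i ∈ Finset.range k, x i :=
          Finset.single_le_sum (f := x) (fun i hi => ((hx i (Finset.mem_range.1 hi)).2.2).le)
            (Finset.mem_range.2 hi)
        have h4 : P * x i ≤ P * ∑ i ∈ Finset.range k, x i := mul_le_mul_of_nonneg_left h3 hP0.le
        have h5 : 0 ≤ P * ∑ i ∈ Finset.range k, x i := by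
          have : 0 < x i := (hx i hi).2.2
          nlinarith [mul_pos hP0 this]
        nlinarith
    have ha1k : ∀ n : ℕ, 1 ≤ a₁ ^ n := fun n => one_le_pow₀ (by omega)
    -- D and E
    let E : ℕ → ℤ := fun i => a₁ ^ (k - i) * s - P * u i
    have hD : ∀ i, i < k → a₁ ^ k * s - P * x i = a₁ ^ i * E i := by
      intro i hi
      have : a₁ ^ k = a₁ ^ i * a₁ ^ (k - i) := by rw [← pow_add]; congr 1; omega
      simp only [E]
      rw [(hx i hi).1, this]; ring
    have hDpos : ∀ i, i < k → 0 < a₁ ^ k * s - P * x i := by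
      intro i hi
      have := hslarge i hi
      nlinarith [ha1k k]
    have hEpos : ∀ i, i < k → 0 < E i := by
      intro i hi
      have := hDpos i hi
      rw [hD i hi] at this
      exact (mul_pos_iff_of_pos_left (by positivity)).1 this
    have hEa : ∀ i, i < k → IsCoprime (E i) a₁ := by
      intro i hi
      have h3 : E i = -(P * u i) + a₁ * (a₁ ^ (k - i - 1) * s) := by
        have h4 : a₁ ^ (k - i) = a₁ * a₁ ^ (k - i - 1) := by
          rw [← pow_succ']; congr 1; omega
        simp only [E]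
        rw [h4]; ring
      rw [h3]
      exact IsCoprime.add_mul_left_left ((hPc.mul_left (hx i hi).2.1).neg_left) _
    have hEP : ∀ i, i < k → IsCoprime (E i) P := by
      intro i hi
      have h3 : E i = a₁ ^ (k - i) * s + P * (-(u i)) := by simp only [E]; ring
      rw [h3]
      exact IsCoprime.add_mul_left_left ((hPc.symm.pow_left).mul_left hs2) _
    -- the CRT step
    have hcop : IsCoprime (∏ i ∈ Finset.range k, E i) (a₁ ^ (k + 1) * P ^ 2) := by
      apply IsCoprime.prod_left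
      intro i hi
      have hi' := Finset.mem_range.1 hi
      exact ((hEa i hi').pow_right).mul_right ((hEP i hi').pow_right)
    have hPi : 0 < ∏ i ∈ Finset.range k, E i :=
      Finset.prod_pos (fun i hi => hEpos i (Finset.mem_range.1 hi))
    obtain ⟨K, hK0, hK⟩ : ∃ K : ℤ, 0 ≤ K ∧ ∀ i, i < k → a₁ ^ k * s - P * x i ≤ K := by
      refine ⟨∑ i ∈ Finset.range k, (a₁ ^ k * s - P * x i), ?_, ?_⟩
      · exact Finset.sum_nonneg (fun i hi => (hDpos i (Finset.mem_range.1 hi)).le)
      · intro i hi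
        exact Finset.single_le_sum (f := fun i => a₁ ^ k * s - P * x i)
          (fun i hi => (hDpos i (Finset.mem_range.1 hi)).le) (Finset.mem_range.2 hi)
    obtain ⟨N, hN1, hN2, hN3⟩ : ∃ N : ℤ, (∏ i ∈ Finset.range k, E i) ∣ N ∧
        a₁ ^ (k + 1) * P ^ 2 ∣ N - a₁ ^ k * s ∧ K + |L| * K + 1 ≤ N := by
      obtain ⟨α, β, hab⟩ := hcop
      set Q := ∏ i ∈ Finset.range k, E i with hQ
      set M := a₁ ^ (k + 1) * P ^ 2 with hM
      have hM0 : 0 < M := by positivity
      set B := K + |L| * K + 1 with hB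
      have hB0 : 0 ≤ B := by positivity
      refine ⟨a₁ ^ k * s * (α * Q) + (|a₁ ^ k * s * (α * Q)| + B) * (Q * M), ?_, ?_, ?_⟩
      · exact Dvd.intro (a₁ ^ k * s * α + (|a₁ ^ k * s * (α * Q)| + B) * M) (by ring)
      · refine ⟨-(a₁ ^ k * s * β) + (|a₁ ^ k * s * (α * Q)| + B) * Q, ?_⟩
        have : α * Q = 1 - β * M := by linarith
        linear_combination (a₁ ^ k * s) * this
      · have h6 : 1 ≤ Q * M := by
          have := mul_pos hPi hM0
          omega
        have h7 := neg_abs_le (a₁ ^ k * s * (α * Q))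
        have h8 := abs_nonneg (a₁ ^ k * s * (α * Q))
        nlinarith
    -- the new sequence
    have hNa : a₁ ^ k ∣ N := by
      have h3 : a₁ ^ k ∣ N - a₁ ^ k * s :=
        dvd_trans (Dvd.intro (a₁ * P ^ 2) (by ring)) hN2
      have := dvd_add h3 (Dvd.intro s rfl : a₁ ^ k ∣ a₁ ^ k * s)
      simpa using this
    obtain ⟨w, hw⟩ := hN2
    refine ⟨fun i => if i < k then N - (a₁ ^ k * s - P * x i) else N,
      fun i => if i < k then a₁ ^ (k + 1 - i) * (P ^ 2 * w) + P * u i else s + a₁ * (P ^ 2 * w),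
      ?_, ?_⟩
    · intro i hi
      by_cases hik : i < k
      · simp only [hik, if_true]
        refine ⟨?_, ?_, ?_⟩
        · have h3 : a₁ ^ (k + 1) = a₁ ^ i * a₁ ^ (k + 1 - i) := by
            rw [← pow_add]; congr 1; omega
          have h4 : N - (a₁ ^ k * s - P * x i) = (N - a₁ ^ k * s) + P * x i := by ring
          rw [h4, hw, (hx i hik).1, h3]; ring
        · have h3 : a₁ ^ (k + 1 - i) = a₁ * a₁ ^ (k - i) := by
            rw [← pow_succ']; congr 1; omega
          have h4 : a₁ ^ (k + 1 - i) * (P ^ 2 * w) + P * u i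
              = P * u i + a₁ * (a₁ ^ (k - i) * (P ^ 2 * w)) := by rw [h3]; ring
          rw [h4]
          exact IsCoprime.add_mul_left_left (hPc.mul_left (hx i hik).2.1) _
        · have := hK i hik
          have h5 : 0 ≤ |L| * K := by positivity
          linarith
      · have hik' : i = k := by omega
        subst hik'
        simp only [lt_irrefl, if_false]
        refine ⟨?_, ?_, ?_⟩
        · have : N = a₁ ^ i * s + a₁ ^ (i + 1) * P ^ 2 * w := by linarith
          rw [this]; ring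
        · exact IsCoprime.add_mul_left_left hs1 _
        · have h5 : 0 ≤ |L| * K := by positivity
          linarith
    · intro i j hij hj
      have hik : i < k := by omega
      have hLK : ∀ t : ℤ, 0 ≤ t → t ≤ K → L * t ≤ |L| * K := by
        intro t ht0 htK
        calc L * t ≤ |L| * t := mul_le_mul_of_nonneg_right (le_abs_self L) ht0
          _ ≤ |L| * K := mul_le_mul_of_nonneg_left htK (abs_nonneg L)
      by_cases hjk : j < k
      · simp only [hik, hjk, if_true]
        have hdiff : N - (a₁ ^ k * s - P * x j) - (N - (a₁ ^ k * s - P * x i))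
            = P * (x j - x i) := by ring
        rw [hdiff]
        have hpos : 0 < P * (x j - x i) := mul_pos hP0 (hd i j hij hjk).1
        refine ⟨hpos, ?_, ?_⟩
        · have h3 : N - (a₁ ^ k * s - P * x i) = (N - a₁ ^ k * s) + P * x i := by ring
          rw [h3]
          apply dvd_add
          · rw [hw, he1 i j hij hjk]
            obtain ⟨f, hf⟩ := hPe i j hij hjk
            have h4 : a₁ ^ (k + 1) = a₁ ^ i * a₁ ^ (k + 1 - i) := by
              rw [← pow_add]; congr 1; omega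
            refine ⟨a₁ ^ (k + 1 - i) * f * w, ?_⟩
            rw [h4]
            calc a₁ ^ i * a₁ ^ (k + 1 - i) * P ^ 2 * w
                = a₁ ^ i * a₁ ^ (k + 1 - i) * (P * P) * w := by ring
              _ = a₁ ^ i * a₁ ^ (k + 1 - i) * (P * (a₂ * e i j * f)) * w := by rw [← hf]
              _ = _ := by ring
          · obtain ⟨f, hf⟩ := (hd i j hij hjk).2.1
            refine ⟨f, ?_⟩
            calc P * x i = P * (a₂ * (x j - x i) * f) := by rw [← hf]
              _ = _ := by ring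
        · have h4 : P * (x j - x i) ≤ K := by
            have h5 := hK i hik
            have h6 := hDpos j hjk
            have : P * (x j - x i) = (a₁ ^ k * s - P * x i) - (a₁ ^ k * s - P * x j) := by ring
            linarith
          have h5 := hLK _ hpos.le h4
          have h6 := hK i hik
          linarith
      · have hjk' : j = k := by omega
        subst hjk'
        simp only [hik, lt_irrefl, if_true, if_false]
        have hdiff : N - (N - (a₁ ^ j * s - P * x i)) = a₁ ^ j * s - P * x i := by ring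
        rw [hdiff]
        refine ⟨hDpos i hik, ?_, ?_⟩
        · rw [hD i hik]
          have h3 : N - a₁ ^ i * E i = (N - a₁ ^ j * s) + P * x i := by
            rw [← hD i hik]; ring
          have h4 : a₂ * (a₁ ^ i * E i) = (a₂ * a₁ ^ i) * E i := by ring
          rw [h4]
          apply IsCoprime.mul_dvd
          · apply IsCoprime.symm
            apply IsCoprime.mul_right
            · obtain ⟨f, hf⟩ := hPa
              have := hEP i hik
              rw [hf] at this
              exact this.of_mul_right_left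
            · exact (hEa i hik).pow_right
          · rw [h3, hw, (hx i hik).1]
            obtain ⟨f, hf⟩ := hPa
            have h5 : a₁ ^ (j + 1) = a₁ ^ i * a₁ ^ (j + 1 - i) := by
              rw [← pow_add]; congr 1; omega
            rw [h5, hf]
            exact Dvd.intro (a₁ ^ (j + 1 - i) * a₂ * f ^ 2 * w + f * u i) (by ring)
          · apply dvd_sub
            · exact dvd_trans (Finset.dvd_prod_of_mem _ (Finset.mem_range.2 hik)) hN1
            · exact Dvd.intro_left _ rfl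
        · have h5 := hLK _ (hDpos i hik).le (hK i hik)
          have h6 := hK i hik
          linarith

/-- In the cliques above the larger term is automatically divisible by `a₁` times the difference. -/
theorem clique' (a₁ a₂ : ℤ) (h1 : 0 < a₁) (h2 : 0 < a₂) (hc : IsCoprime a₁ a₂) (L : ℤ) (k : ℕ) :
    ∃ x : ℕ → ℤ, (∀ i, i < k → 0 < x i) ∧
      (∀ i j, i < j → j < k → 0 < x j - x i ∧ a₂ * (x j - x i) ∣ x i ∧
        a₁ * (x j - x i) ∣ x j ∧ L * (x j - x i) ≤ x i) := by
  obtain ⟨x, u, hx, hd⟩ := clique a₁ a₂ h1 h2 hc L k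
  refine ⟨x, fun i hi => (hx i hi).2.2, ?_⟩
  intro i j hij hj
  obtain ⟨hp, hdv, hL⟩ := hd i j hij hj
  refine ⟨hp, hdv, ?_, hL⟩
  obtain ⟨hxi, hci, _⟩ := hx i (by omega)
  obtain ⟨hxj, hcj, _⟩ := hx j hj
  have hpow : a₁ ^ j = a₁ ^ i * (a₁ * a₁ ^ (j - i - 1)) := by
    rw [← pow_succ', ← pow_add]; congr 1; omega
  have hdiff : x j - x i = a₁ ^ i * (a₁ * a₁ ^ (j - i - 1) * u j - u i) := by
    rw [hxi, hxj, hpow]; ring
  have hec : IsCoprime (a₁ * a₁ ^ (j - i - 1) * u j - u i) a₁ := by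
    have : a₁ * a₁ ^ (j - i - 1) * u j - u i = -(u i) + a₁ * (a₁ ^ (j - i - 1) * u j) := by ring
    rw [this]
    exact IsCoprime.add_mul_left_left (hci.neg_left) _
  have hi0 : (a₁ ^ i) ≠ 0 := by positivity
  have h3 : (a₁ * a₁ ^ (j - i - 1) * u j - u i) ∣ u i := by
    have h4 : a₁ ^ i * (a₁ * a₁ ^ (j - i - 1) * u j - u i) ∣ a₁ ^ i * u i := by
      rw [← hdiff, ← hxi]
      exact dvd_trans (Dvd.intro_left _ rfl) hdv
    exact (mul_dvd_mul_iff_left hi0).1 h4
  have h5 : (a₁ * a₁ ^ (j - i - 1) * u j - u i) ∣ a₁ * a₁ ^ (j - i - 1) * u j := by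
    have := dvd_add (dvd_refl (a₁ * a₁ ^ (j - i - 1) * u j - u i)) h3
    simpa using this
  have h6 : (a₁ * a₁ ^ (j - i - 1) * u j - u i) ∣ a₁ ^ (j - i - 1) * u j := by
    apply hec.dvd_of_dvd_mul_left
    rwa [← mul_assoc]
  rw [hdiff, hxj, hpow]
  obtain ⟨f, hf⟩ := h6
  refine ⟨f, ?_⟩
  calc a₁ ^ i * (a₁ * a₁ ^ (j - i - 1)) * u j = a₁ ^ i * a₁ * (a₁ ^ (j - i - 1) * u j) := by ring
    _ = a₁ ^ i * a₁ * ((a₁ * a₁ ^ (j - i - 1) * u j - u i) * f) := by rw [← hf]
    _ = _ := by ring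

/-- A modulus `a` dividing `b * d` with `gcd (a, b, d) = 1` splits. -/
theorem split (a : ℕ) (b d : ℤ) (ha : 0 < a)
    (hg : ∀ k : ℤ, k ∣ (a : ℤ) → k ∣ b → k ∣ d → IsUnit k) (hab : (a : ℤ) ∣ b * d) :
    ∃ a₁ a₂ : ℤ, 0 < a₁ ∧ 0 < a₂ ∧ IsCoprime a₁ a₂ ∧ (a : ℤ) = a₁ * a₂ ∧ a₁ ∣ b ∧ a₂ ∣ d := by
  have ha' : (0 : ℤ) < a := by exact_mod_cast ha
  have hcop : IsCoprime (Int.gcd a b : ℤ) (Int.gcd a d : ℤ) := by
    rw [Int.isCoprime_iff_gcd_eq_one]
    have hu := hg (Int.gcd (Int.gcd a b : ℤ) (Int.gcd a d : ℤ) : ℤ)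
      (dvd_trans (Int.gcd_dvd_left _ _) (Int.gcd_dvd_left _ _))
      (dvd_trans (Int.gcd_dvd_left _ _) (Int.gcd_dvd_right _ _))
      (dvd_trans (Int.gcd_dvd_right _ _) (Int.gcd_dvd_right _ _))
    rw [Int.isUnit_iff] at hu
    omega
  refine ⟨(Int.gcd a b : ℤ), (Int.gcd a d : ℤ), ?_, ?_, ?_, ?_, ?_, ?_⟩
  · exact_mod_cast Int.gcd_pos_of_ne_zero_left _ ha'.ne'
  · exact_mod_cast Int.gcd_pos_of_ne_zero_left _ ha'.ne'
  · exact hcop
  · have h1 : (a : ℤ) ∣ (Int.gcd a b : ℤ) * (Int.gcd a d : ℤ) := by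
      have h2 := gcd_mul_dvd_mul_gcd (a : ℤ) b d
      have h3 : (a : ℤ) ∣ gcd (a : ℤ) (b * d) := dvd_gcd (dvd_refl _) hab
      rw [Int.coe_gcd, Int.coe_gcd]
      exact dvd_trans h3 h2
    have h2 : (Int.gcd a b : ℤ) * (Int.gcd a d : ℤ) ∣ (a : ℤ) :=
      hcop.mul_dvd (Int.gcd_dvd_left _ _) (Int.gcd_dvd_left _ _)
    exact Int.dvd_antisymm ha'.le (by positivity) h1 h2
  · exact Int.gcd_dvd_right _ _
  · exact Int.gcd_dvd_right _ _

/-- Among finitely many sets of the same measure `m` with `1 < k * m` in a probability space,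
two meet in positive measure. -/
theorem pigeonhole {X : Type} [MeasurableSpace X] (μ : Measure X) [IsProbabilityMeasure μ]
    (B : ℕ → Set X) (m : ENNReal) (k : ℕ) (hB : ∀ i, i < k → MeasurableSet (B i))
    (hm : ∀ i, i < k → μ (B i) = m) (hk : 1 < k * m) :
    ∃ i j, i < j ∧ j < k ∧ 0 < μ (B i ∩ B j) := by
  by_contra hcon
  push Not at hcon
  have hdis : Set.Pairwise (↑(Finset.range k)) (fun i j => AEDisjoint μ (B i) (B j)) := by
    intro i hi j hj hij
    have hi' : i < k := by simpa using hi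
    have hj' : j < k := by simpa using hj
    rcases lt_or_gt_of_ne hij with h | h
    · exact le_antisymm (hcon i j h hj') bot_le
    · have := le_antisymm (hcon j i h hi') bot_le
      rw [Set.inter_comm] at this
      exact this
  have h1 := measure_biUnion_finset₀ (μ := μ) (s := Finset.range k) (f := B) hdis
    (fun i hi => (hB i (Finset.mem_range.1 hi)).nullMeasurableSet)
  have h2 : ∑ p ∈ Finset.range k, μ (B p) = k * m := by
    rw [Finset.sum_congr rfl (fun i hi => hm i (Finset.mem_range.1 hi))]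
    simp
  have h3 : μ (⋃ b ∈ Finset.range k, B b) ≤ 1 := prob_le_one
  rw [h1, h2] at h3
  exact absurd hk (not_lt.2 h3)

/-- The main recurrence statement for `d < b`, in symmetric form. -/
theorem main_lt (a : ℕ) (b d : ℤ) (ha : 0 < a)
    (hg : ∀ k : ℤ, k ∣ (a : ℤ) → k ∣ b → k ∣ d → IsUnit k) (hab : (a : ℤ) ∣ b * d) (hbd : d < b)
    (X : Type) [MeasurableSpace X] (μ : Measure X) [IsProbabilityMeasure μ]
    (T : ℚ → X → X)
    (hT : ∀ q : ℚ, 0 < q → MeasurePreserving (T q) μ μ)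
    (A : Set X) (hA : MeasurableSet A) (hA0 : 0 < μ A) :
    ∃ (n : ℕ) (x y : ℚ), 0 < n ∧ 0 < (a : ℤ) * n + b ∧ 0 < (a : ℤ) * n + d ∧
      0 < x ∧ 0 < y ∧ y * ((a : ℚ) * n + d) = x * ((a : ℚ) * n + b) ∧
      0 < μ (T x ⁻¹' A ∩ T y ⁻¹' A) := by
  obtain ⟨a₁, a₂, h1, h2, hc, haa, hb1, hd2⟩ := split a b d ha hg hab
  obtain ⟨k, hk⟩ : ∃ k : ℕ, 1 < k * μ A := by
    obtain ⟨k, hk⟩ := ENNReal.exists_nat_mul_gt hA0.ne' ENNReal.one_ne_top
    exact ⟨k, hk⟩
  obtain ⟨x, hx0, hx⟩ := clique' a₁ a₂ h1 h2 hc (|d| + |b| + 1) k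
  obtain ⟨i, j, hij, hjk, hpos⟩ := pigeonhole μ (fun i => T (x i : ℚ) ⁻¹' A) (μ A) k
    (fun i hi => (hT _ (by exact_mod_cast hx0 i hi)).measurable hA)
    (fun i hi => (hT _ (by exact_mod_cast hx0 i hi)).measure_preimage hA.nullMeasurableSet) hk
  obtain ⟨hg0, ⟨m, hm⟩, ⟨m', hm'⟩, hL⟩ := hx i j hij hjk
  set g := x j - x i with hgdef
  have hcm : a₁ * m' = a₂ * m + 1 := by
    have h3 : g * (a₁ * m') = g * (a₂ * m + 1) := by
      have : x j = x i + g := by rw [hgdef]; ring
      rw [hm, hm'] at this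
      linarith
    exact mul_left_cancel₀ hg0.ne' h3
  -- divisibility
  have hdiv : (a : ℤ) ∣ (b - d) * (a₂ * m) - d := by
    rw [haa]
    apply hc.mul_dvd
    · have : (b - d) * (a₂ * m) - d = (b - d) * (a₁ * m') - b := by rw [hcm]; ring
      rw [this]
      exact dvd_sub (Dvd.intro ((b - d) * m') (by ring)) hb1
    · exact dvd_sub (Dvd.intro ((b - d) * m) (by ring)) hd2
  obtain ⟨n, hn⟩ := hdiv
  have ham : |d| + |b| + 1 ≤ a₂ * m := by
    have h3 : (|d| + |b| + 1) * g ≤ (a₂ * m) * g := by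
      calc (|d| + |b| + 1) * g ≤ x i := hL
        _ = (a₂ * m) * g := by rw [hm]; ring
    exact le_of_mul_le_mul_right h3 hg0
  have hbd1 : 1 ≤ b - d := by omega
  have habs1 := le_abs_self d
  have habs2 := neg_abs_le b
  have habs3 := abs_nonneg b
  have habs4 := abs_nonneg d
  have hbig : |d| + |b| + 1 ≤ (b - d) * (a₂ * m) := by nlinarith
  have hn0 : 0 < n := by
    have h3 : 0 < (a : ℤ) * n := by rw [← hn]; linarith
    exact (mul_pos_iff_of_pos_left (by exact_mod_cast ha)).1 h3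
  have hnd : (a : ℤ) * n + d = (b - d) * (a₂ * m) := by rw [← hn]; ring
  have hnb : (a : ℤ) * n + b = (b - d) * (a₁ * m') := by rw [← hn, hcm]; ring
  have hnn : ((n.toNat : ℕ) : ℤ) = n := Int.toNat_of_nonneg hn0.le
  have hnnq : ((n.toNat : ℕ) : ℚ) = (n : ℚ) := by exact_mod_cast hnn
  refine ⟨n.toNat, (x i : ℚ), (x j : ℚ), ?_, ?_, ?_, ?_, ?_, ?_, hpos⟩
  · omega
  · rw [hnn]
    have : |d| + |b| + 1 ≤ (a : ℤ) * n + d := by rw [hnd]; exact hbig
    linarith
  · rw [hnn, hnd]; linarith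
  · exact_mod_cast hx0 i (by omega)
  · exact_mod_cast hx0 j hjk
  · rw [hnnq]
    have h3 : x j * ((a : ℤ) * n + d) = x i * ((a : ℤ) * n + b) := by
      rw [hnd, hnb, hm, hm']; ring
    exact_mod_cast h3

/-- If a≥1, gcd(a,b,d)=1, and b=d or a divides bd, then for every measure-preserving action of the positive rationals under multiplication and every positive-measure set A, some ratio (an+b)/(an+d) with n≥1 and both terms positive returns A to itself in positive measure. -/
theorem result :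
    ∀ (a : ℕ) (b d : ℤ), 0 < a →
      (∀ k : ℤ, k ∣ (a : ℤ) → k ∣ b → k ∣ d → IsUnit k) →
      (b = d ∨ (a : ℤ) ∣ b * d) →
      ∀ (X : Type) [MeasurableSpace X] (μ : Measure X) [IsProbabilityMeasure μ]
        (T : ℚ → X → X),
        T 1 = id →
        (∀ q r : ℚ, 0 < q → 0 < r → T (q * r) = T q ∘ T r) →
        (∀ q : ℚ, 0 < q → MeasurePreserving (T q) μ μ) →
        ∀ A : Set X, MeasurableSet A → 0 < μ A →
          ∃ n : ℕ, 0 < n ∧ 0 < (a : ℤ) * n + b ∧ 0 < (a : ℤ) * n + d ∧
            0 < μ (A ∩ T (((a : ℚ) * n + b) / ((a : ℚ) * n + d)) ⁻¹' A) := by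
  intro a b d ha hg hor X _ μ _ T hT1 hTm hT A hA hA0
  have key : ∀ q x y : ℚ, 0 < q → 0 < x → y = q * x → 0 < μ (T x ⁻¹' A ∩ T y ⁻¹' A) →
      0 < μ (A ∩ T q ⁻¹' A) := by
    intro q x y hq hx hy hpos
    have h1 : T x ⁻¹' A ∩ T y ⁻¹' A = T x ⁻¹' (A ∩ T q ⁻¹' A) := by
      rw [hy, hTm q x hq hx, Set.preimage_inter, Set.preimage_comp]
    rw [h1, (hT x hx).measure_preimage
      (hA.inter ((hT q hq).measurable hA)).nullMeasurableSet] at hpos
    exact hpos
  rcases lt_trichotomy b d with hlt | heq | hgt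
  · have hab : (a : ℤ) ∣ b * d := by
      rcases hor with h | h
      · omega
      · exact h
    obtain ⟨n, x, y, hn, hnb, hnd, hx, hy, hxy, hpos⟩ := main_lt a d b ha
      (fun k h1 h2 h3 => hg k h1 h3 h2) (by rwa [mul_comm]) hlt X μ T hT A hA hA0
    refine ⟨n, hn, hnd, hnb, ?_⟩
    have hnb' : (0 : ℚ) < (a : ℚ) * n + d := by exact_mod_cast hnb
    have hnd' : (0 : ℚ) < (a : ℚ) * n + b := by exact_mod_cast hnd
    refine key _ y x (div_pos hnd' hnb') hy ?_ (by rwa [Set.inter_comm])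
    field_simp
    linarith
  · subst heq
    obtain ⟨N, hN0, hN⟩ : ∃ N : ℕ, 0 < N ∧ 0 < (a : ℤ) * (N : ℤ) + b := by
      refine ⟨b.natAbs + 1, by omega, ?_⟩
      have h3 : (1 : ℤ) ≤ a := by exact_mod_cast ha
      have h4 : (b.natAbs : ℤ) = |b| := Int.natCast_natAbs b
      have h5 := neg_abs_le b
      have h6 := abs_nonneg b
      push_cast
      nlinarith
    refine ⟨N, hN0, hN, hN, ?_⟩
    have h2 : (0 : ℚ) < (a : ℚ) * (N : ℚ) + b := by
      have h7 : ((0 : ℤ) : ℚ) < (((a : ℤ) * (N : ℤ) + b : ℤ) : ℚ) := by exact_mod_cast hN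
      push_cast at h7
      exact h7
    rw [div_self h2.ne', hT1]
    simpa using hA0
  · have hab : (a : ℤ) ∣ b * d := by
      rcases hor with h | h
      · omega
      · exact h
    obtain ⟨n, x, y, hn, hnb, hnd, hx, hy, hxy, hpos⟩ := main_lt a b d ha hg hab hgt X μ T hT A hA hA0
    refine ⟨n, hn, hnb, hnd, ?_⟩
    have hnb' : (0 : ℚ) < (a : ℚ) * n + b := by exact_mod_cast hnb
    have hnd' : (0 : ℚ) < (a : ℚ) * n + d := by exact_mod_cast hnd
    refine key _ x y (div_pos hnb' hnd') hx ?_ hpos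
    field_simp
    linarith

end Pool.Agent.S16915
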