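import Pool.Statements.S17091
import Pool.Agent.T9h95.S3.Inert

set_option autoImplicit false
open Pool Pool.MP_5bfa61_nt

namespace Pool.Agent.S17091

/-- For every odd prime p, with S = sum over k<p of C(2k,k)^2 C(3k,k)/8^k: if (-2/p)=1 and p=x^2+2y^2, p^2 divides the numerator of S-(4x^2-2p); if (-2/p)=-1, p^2 divides the numerator of S. -/
theorem result :
    ∀ (p : ℕ) [Fact p.Prime], p ≠ 2 →
      ((legendreSym p (-2) = 1 →
          ∀ x y : ℤ, (p : ℤ) = x ^ 2 + 2 * y ^ 2 →
            (p : ℤ) ^ 2 ∣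
              ((∑ k ∈ Finset.range p,
                  ((Nat.choose (2 * k) k : ℚ) ^ 2 * (Nat.choose (3 * k) k : ℚ)) / (8 : ℚ) ^ k)
                - (((4 * x ^ 2 - 2 * (p : ℤ)) : ℤ) : ℚ)).num) ∧
       (legendreSym p (-2) = -1 →
            (p : ℤ) ^ 2 ∣
              (∑ k ∈ Finset.range p,
                  ((Nat.choose (2 * k) k : ℚ) ^ 2 * (Nat.choose (3 * k) k : ℚ)) / (8 : ℚ) ^ k).num)) := by
  intro p hp hp2
  rcases Nat.lt_or_ge 3 p with h3 | h3
  · constructor
    · intro hsq x y hxy
      refine Pool.Agent.T9h95.S3.num_dvd p hp2 _ (p - 1) _ ?_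
        (Pool.Agent.T9h95.S3.split_case p h3 hsq x y hxy)
      rw [sub_mul, Pool.Agent.T9h95.S3.MS_rat]
      push_cast
      ring
    · intro hsq
      exact Pool.Agent.T9h95.S3.num_dvd p hp2 _ (p - 1) _ (Pool.Agent.T9h95.S3.MS_rat p)
        (Pool.Agent.T9h95.S3.inert_case p h3 hsq)
  · have hp3 : p = 3 := by
      have := hp.out.two_le
      omega
    subst hp3
    constructor
    · intro _ x y hxy
      have hx : x ^ 2 = 1 := by
        have h0 : x ^ 2 + 2 * y ^ 2 = 3 := by exact_mod_cast hxy.symm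
        have hy1 : y ≤ 1 := by nlinarith [sq_nonneg x]
        have hy2 : -1 ≤ y := by nlinarith [sq_nonneg x]
        have hx1 : x ≤ 1 := by nlinarith [sq_nonneg y]
        have hx2 : -1 ≤ x := by nlinarith [sq_nonneg y]
        interval_cases y <;> interval_cases x <;> omega
      rw [hx]
      have : ((∑ k ∈ Finset.range 3,
                  ((Nat.choose (2 * k) k : ℚ) ^ 2 * (Nat.choose (3 * k) k : ℚ)) / (8 : ℚ) ^ k)
                - (((4 * 1 - 2 * ((3 : ℕ) : ℤ)) : ℤ) : ℚ)) = 207 / 16 := by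
        rw [Finset.sum_range_succ, Finset.sum_range_succ, Finset.sum_range_succ,
          Finset.sum_range_zero]
        norm_num [Nat.choose]
      rw [this]
      norm_num
    · intro h
      exfalso
      rw [legendreSym.eq_neg_one_iff] at h
      exact h ⟨1, rfl⟩

end Pool.Agent.S17091
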