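import Pool.Statements.S18419

set_option autoImplicit false
open Pool Pool.MP_c520af_nt

namespace Pool.Agent.S18419

open Polynomial

/-- The node `2 i - (d - 1)`. -/
def node (K : Type) [Field K] (d : ℕ) (i : ℕ) : K := 2 * (i : K) - ((d : K) - 1)

/-- The polynomial with roots the symmetric set of nodes. -/
noncomputable def poly (K : Type) [Field K] (d : ℕ) : K[X] :=
  ∏ i ∈ Finset.range d, (X - C (node K d i))

lemma natDegree_poly (K : Type) [Field K] (d : ℕ) : (poly K d).natDegree = d := by
  unfold poly
  rw [Polynomial.natDegree_prod_of_monic]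
  · simp
  · intro i _
    exact monic_X_sub_C _

lemma eval_poly (K : Type) [Field K] (d i : ℕ) (hi : i < d) :
    (poly K d).eval (node K d i) = 0 := by
  unfold poly
  rw [eval_prod]
  exact Finset.prod_eq_zero (Finset.mem_range.2 hi) (by simp)

lemma node_neg (K : Type) [Field K] (d i : ℕ) (hi : i < d) :
    node K d (d - 1 - i) = - node K d i := by
  unfold node
  have : ((d - 1 - i : ℕ) : K) = (d : K) - 1 - i := by
    rw [Nat.sub_sub, Nat.cast_sub (by omega)]
    push_cast
    ring
  rw [this]
  ring

lemma eval_poly_neg (K : Type) [Field K] (d i : ℕ) (hi : i < d) :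
    (poly K d).eval (- node K d i) = 0 := by
  rw [← node_neg K d i hi]
  exact eval_poly K d _ (by omega)

lemma node_inj (K : Type) [Field K] [CharZero K] (d i j : ℕ) (h : node K d i = node K d j) :
    i = j := by
  unfold node at h
  have h2 : (2 : K) * i = 2 * j := by linear_combination h
  have h3 := mul_left_cancel₀ (two_ne_zero) h2
  exact_mod_cast h3

/-- For every number field K there are maps (x,y) to (y, F_d(y) − δ_d x), with deg F_d = d and δ_d ≠ 0, for each d ≥ 2, whose number of K-rational periodic points eventually exceeds C·d for every constant C. -/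
theorem result :
    ∀ (K : Type) [Field K] [NumberField K],
      ∃ (F : ℕ → Polynomial K) (δ : ℕ → K),
        (∀ d : ℕ, 2 ≤ d → (F d).natDegree = d ∧ δ d ≠ 0) ∧
        ∀ C : ℕ, ∃ D : ℕ, ∀ d : ℕ, 2 ≤ d → D ≤ d →
          (((C * d : ℕ) : ℕ∞) <
            {P : K × K | ∃ n : ℕ, 1 ≤ n ∧
              (fun p : K × K => (p.2, (F d).eval p.2 - δ d * p.1))^[n] P = P}.encard) := by
  intro K _ _
  refine ⟨fun d => poly K d, fun _ => 1, fun d _ => ⟨natDegree_poly K d, one_ne_zero⟩, ?_⟩
  intro C
  refine ⟨C + 1, ?_⟩
  intro d _ hd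
  have hsub : (fun q : ℕ × ℕ => ((node K d q.1, node K d q.2) : K × K)) ''
      ((Finset.range d ×ˢ Finset.range d : Finset (ℕ × ℕ)) : Set (ℕ × ℕ)) ⊆
      {P : K × K | ∃ n : ℕ, 1 ≤ n ∧
              (fun p : K × K => (p.2, (poly K d).eval p.2 - (1 : K) * p.1))^[n] P = P} := by
    rintro _ ⟨⟨i, j⟩, hij, rfl⟩
    have hij' : i < d ∧ j < d := by simpa using hij
    refine ⟨4, by norm_num, ?_⟩
    simp only [Function.iterate_succ, Function.iterate_zero, Function.comp, id]
    rw [eval_poly K d j hij'.2]
    simp only [one_mul, zero_sub]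
    rw [eval_poly_neg K d i hij'.1]
    simp only [zero_sub]
    rw [eval_poly_neg K d j hij'.2]
    simp only [zero_sub, neg_neg]
    rw [eval_poly K d i hij'.1]
    simp
  refine lt_of_lt_of_le ?_ (Set.encard_le_encard hsub)
  rw [Set.InjOn.encard_image]
  · rw [Set.encard_coe_eq_coe_finsetCard, Finset.card_product, Finset.card_range]
    have : C * d < d * d := Nat.mul_lt_mul_of_pos_right (by omega) (by omega)
    exact_mod_cast this
  · rintro ⟨i, j⟩ _ ⟨i', j'⟩ _ h
    have h1 : node K d i = node K d i' := congrArg Prod.fst h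
    have h2 : node K d j = node K d j' := congrArg Prod.snd h
    rw [node_inj K d i i' h1, node_inj K d j j' h2]

end Pool.Agent.S18419
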